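import Pool.Agent.Results.MP_cc637b_co.StrongForever

set_option autoImplicit false

/-!
# Digraphs that stay highly connected under all cycle reversal sequences
-/

namespace Pool.Agent.Results.MP_cc637b_co.KConnectedForever

open Pool.Agent.Results.MP_cc637b_co.StrongForever

universe u v

/-- The arcs of `D` leaving the vertex set `X`. -/
def leaving {V : Type u} (D : V → V → Prop) (X : Set V) : Set (V × V) :=
  {p | p.1 ∈ X ∧ p.2 ∉ X ∧ D p.1 p.2}

/-- The edges of `D` between `X` and its complement, written as pairs (end in `X`, end outside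
`X`). -/
def boundary {V : Type u} (D : V → V → Prop) (X : Set V) : Set (V × V) :=
  {p | p.1 ∈ X ∧ p.2 ∉ X ∧ (D p.1 p.2 ∨ D p.2 p.1)}

section general

variable {V : Type u}

theorem leaving_subset (D : V → V → Prop) (X : Set V) : leaving D X ⊆ boundary D X :=
  fun _ hp => ⟨hp.1, hp.2.1, Or.inl hp.2.2⟩

theorem boundary_congr {D E : V → V → Prop}
    (hadj : ∀ x y, (E x y ∨ E y x) ↔ (D x y ∨ D y x)) (X : Set V) :
    boundary E X = boundary D X := by
  ext p
  unfold boundary
  simp only [Set.mem_ofPred_eq, hadj]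

theorem boundary_compl (D : V → V → Prop) (X : Set V) :
    boundary D Xᶜ = Prod.swap '' boundary D X := by
  ext ⟨a, b⟩
  simp only [boundary, Set.mem_ofPred_eq, Set.mem_compl_iff, not_not, Set.mem_image, Prod.exists,
    Prod.swap_prod_mk, Prod.mk.injEq]
  constructor
  · rintro ⟨h1, h2, h3⟩
    exact ⟨b, a, ⟨h2, h1, h3.symm⟩, rfl, rfl⟩
  · rintro ⟨c, d, ⟨h1, h2, h3⟩, rfl, rfl⟩
    exact ⟨h2, h1, h3.symm⟩

theorem basic {D : V → V → Prop} {θ : Ordinal.{v}} {C E : Ordinal.{v} → V → V → Prop}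
    (hD : IsOriented D) (h : IsReversalSequence D θ C E) (ξ : Ordinal.{v}) : ξ ≤ θ →
    IsOriented (E ξ) ∧ (∀ x y, (E ξ x y ∨ E ξ y x) ↔ (D x y ∨ D y x)) := by
  induction ξ using WellFoundedLT.induction with
  | _ ξ ih =>
    intro hξ
    rcases Ordinal.zero_or_succ_or_isSuccLimit ξ with rfl | ⟨δ, rfl⟩ | hl
    · rw [h.zero]
      exact ⟨hD, fun x y => Iff.rfl⟩
    · have hδ : δ < θ := Order.succ_le_iff.1 hξ
      obtain ⟨h1, h2⟩ := ih δ (Order.lt_succ δ) hδ.le
      rw [h.succ δ hδ]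
      refine ⟨reverse_oriented h1 (h.cycle δ hδ), fun x y => ?_⟩
      rw [reverse_adj (h.cycle δ hδ), h2]
    · refine ⟨fun x y h1 h2 => ?_, fun x y => ⟨?_, fun hxy => ?_⟩⟩
      · obtain ⟨η, hη, hall⟩ := (h.limit ξ hξ hl x y).1 h1
        obtain ⟨η', hη', hall'⟩ := (h.limit ξ hξ hl y x).1 h2
        exact (ih (max η η') (max_lt hη hη') ((max_lt hη hη').le.trans hξ)).1 x y
          (hall _ (le_max_left _ _) (max_lt hη hη')) (hall' _ (le_max_right _ _) (max_lt hη hη'))
      · rintro (h1 | h1)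
        · obtain ⟨η, hη, hall⟩ := (h.limit ξ hξ hl x y).1 h1
          exact ((ih η hη (hη.le.trans hξ)).2 x y).1 (Or.inl (hall η le_rfl hη))
        · obtain ⟨η, hη, hall⟩ := (h.limit ξ hξ hl y x).1 h1
          exact ((ih η hη (hη.le.trans hξ)).2 x y).1 (Or.inr (hall η le_rfl hη))
      · obtain ⟨η₁, h1, h2⟩ := eventually_const h hξ hl x y hxy
        obtain ⟨η₂, h3, h4⟩ := eventually_const h hξ hl y x hxy.symm
        have hm := max_lt h1 h3
        have h5 := ((ih _ hm (hm.le.trans hξ)).2 x y).2 hxy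
        rcases h5 with h5 | h5
        · left
          rw [h2 ξ h1.le le_rfl, ← h2 _ (le_max_left _ _) hm.le]
          exact h5
        · right
          rw [h4 ξ h3.le le_rfl, ← h4 _ (le_max_right _ _) hm.le]
          exact h5

open Classical in
/-- A closed walk leaves `X` as often as it enters `X`. -/
theorem cycle_cross {n : ℕ} (c : ZMod (n + 1) → V) (X : Set V) :
    (Finset.univ.filter (fun i => c i ∈ X ∧ c (i + 1) ∉ X)).card =
      (Finset.univ.filter (fun i => c i ∉ X ∧ c (i + 1) ∈ X)).card := by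
  have h1 : ∑ i : ZMod (n + 1), (if c (i + 1) ∈ X then (1 : ℤ) else 0) =
      ∑ i : ZMod (n + 1), (if c i ∈ X then (1 : ℤ) else 0) :=
    Equiv.sum_comp (Equiv.addRight (1 : ZMod (n + 1))) (fun i => if c i ∈ X then (1 : ℤ) else 0)
  have h2 : ((Finset.univ.filter (fun i => c i ∈ X ∧ c (i + 1) ∉ X)).card : ℤ) -
      ((Finset.univ.filter (fun i => c i ∉ X ∧ c (i + 1) ∈ X)).card : ℤ) =
      ∑ i : ZMod (n + 1), (if c i ∈ X then (1 : ℤ) else 0) -
        ∑ i : ZMod (n + 1), (if c (i + 1) ∈ X then (1 : ℤ) else 0) := by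
    rw [Finset.card_filter, Finset.card_filter]
    push_cast
    rw [← Finset.sum_sub_distrib, ← Finset.sum_sub_distrib]
    refine Finset.sum_congr rfl fun i _ => ?_
    by_cases ha : c i ∈ X <;> by_cases hb : c (i + 1) ∈ X <;> simp [ha, hb]
  rw [h1, sub_self] at h2
  have := sub_eq_zero.1 h2
  exact_mod_cast this

theorem leaving_reverse {D Z : V → V → Prop} (hD : IsOriented D) (hZ : IsDirectedCycle D Z)
    (X : Set V) (hX : (boundary D X).Finite) :
    (leaving (reverse D Z) X).ncard = (leaving D X).ncard := by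
  classical
  obtain ⟨n, c, hc, harc, hZc⟩ := hZ
  have hsub : ∀ x y, Z x y → D x y := by
    intro x y h
    obtain ⟨i, rfl, rfl⟩ := (hZc x y).1 h
    exact harc i
  have hfin : (leaving D X).Finite := hX.subset (leaving_subset D X)
  set A : Set (V × V) := {p | p.1 ∈ X ∧ p.2 ∉ X ∧ Z p.1 p.2} with hA
  set B : Set (V × V) := {p | p.1 ∈ X ∧ p.2 ∉ X ∧ Z p.2 p.1} with hB
  have hAeq : A = (fun i => (c i, c (i + 1))) ''
      ((Finset.univ.filter (fun i => c i ∈ X ∧ c (i + 1) ∉ X) : Finset (ZMod (n + 1))) :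
        Set (ZMod (n + 1))) := by
    ext ⟨a, b⟩
    simp only [hA, Set.mem_ofPred_eq, Set.mem_image, Finset.coe_filter, Finset.mem_univ, true_and,
      Prod.mk.injEq, hZc]
    constructor
    · rintro ⟨h1, h2, i, rfl, rfl⟩
      exact ⟨i, ⟨h1, h2⟩, rfl, rfl⟩
    · rintro ⟨i, ⟨h1, h2⟩, rfl, rfl⟩
      exact ⟨h1, h2, i, rfl, rfl⟩
  have hBeq : B = (fun i => (c (i + 1), c i)) ''
      ((Finset.univ.filter (fun i => c i ∉ X ∧ c (i + 1) ∈ X) : Finset (ZMod (n + 1))) :
        Set (ZMod (n + 1))) := by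
    ext ⟨a, b⟩
    simp only [hB, Set.mem_ofPred_eq, Set.mem_image, Finset.coe_filter, Finset.mem_univ, true_and,
      Prod.mk.injEq, hZc]
    constructor
    · rintro ⟨h1, h2, i, rfl, rfl⟩
      exact ⟨i, ⟨h2, h1⟩, rfl, rfl⟩
    · rintro ⟨i, ⟨h2, h1⟩, rfl, rfl⟩
      exact ⟨h1, h2, i, rfl, rfl⟩
  have hAB : A.ncard = B.ncard := by
    rw [hAeq, hBeq, Set.ncard_image_of_injective, Set.ncard_image_of_injective,
      Set.ncard_coe_finset, Set.ncard_coe_finset, cycle_cross]
    · intro i j hij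
      exact hc (Prod.mk.inj hij).2
    · intro i j hij
      exact hc (Prod.mk.inj hij).1
  have hAsub : A ⊆ leaving D X := fun p hp => ⟨hp.1, hp.2.1, hsub _ _ hp.2.2⟩
  have hBfin : B.Finite := by
    rw [hBeq]
    exact (Finset.finite_toSet _).image _
  have hset : leaving (reverse D Z) X = (leaving D X \ A) ∪ B := by
    ext p
    simp only [leaving, reverse, Set.mem_ofPred_eq, Set.mem_union, Set.mem_sdiff, hA, hB]
    tauto
  have hdisj : Disjoint (leaving D X \ A) B := by
    rw [Set.disjoint_left]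
    rintro p ⟨hp, -⟩ hq
    exact hD _ _ hp.2.2 (hsub _ _ hq.2.2)
  rw [hset, Set.ncard_union_eq hdisj (hfin.subset Set.sdiff_subset) hBfin,
    Set.ncard_sdiff hAsub (hfin.subset hAsub), ← hAB]
  have := Set.ncard_le_ncard hAsub hfin
  omega

/-- Reversal sequences keep the number of arcs leaving `X` for every vertex set `X` with finite
boundary. -/
theorem cut_invariant {D : V → V → Prop} {θ : Ordinal.{v}} {C E : Ordinal.{v} → V → V → Prop}
    (hD : IsOriented D) (h : IsReversalSequence D θ C E) (X : Set V) (hX : (boundary D X).Finite)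
    (ξ : Ordinal.{v}) : ξ ≤ θ → (leaving (E ξ) X).ncard = (leaving D X).ncard := by
  induction ξ using WellFoundedLT.induction with
  | _ ξ ih =>
    intro hξ
    rcases Ordinal.zero_or_succ_or_isSuccLimit ξ with rfl | ⟨δ, rfl⟩ | hl
    · rw [h.zero]
    · have hδ : δ < θ := Order.succ_le_iff.1 hξ
      obtain ⟨h1, h2⟩ := basic hD h δ hδ.le
      rw [h.succ δ hδ, leaving_reverse h1 (h.cycle δ hδ), ih δ (Order.lt_succ δ) hδ.le]
      rw [boundary_congr h2]
      exact hX
    · have hc : ∀ p : V × V, ∃ η < ξ, p ∈ boundary D X → (E ξ p.1 p.2 ↔ E η p.1 p.2) ∧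
          ∀ ζ, η ≤ ζ → ζ ≤ ξ → (E ζ p.1 p.2 ↔ E η p.1 p.2) := by
        intro p
        by_cases hp : p ∈ boundary D X
        · obtain ⟨η, h1, h2⟩ := eventually_const h hξ hl p.1 p.2 hp.2.2
          exact ⟨η, h1, fun _ => ⟨h2 ξ h1.le le_rfl, h2⟩⟩
        · have h0 : 0 < ξ := by
            rw [pos_iff_ne_zero]
            rintro rfl
            exact Ordinal.not_isSuccLimit_zero hl
          exact ⟨0, h0, fun hp' => absurd hp' hp⟩
      choose g hg1 hg2 using hc
      have h0 : 0 < ξ := by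
        rw [pos_iff_ne_zero]
        rintro rfl
        exact Ordinal.not_isSuccLimit_zero hl
      have hlt : hX.toFinset.sup g < ξ := by
        rw [Finset.sup_lt_iff (by simpa using h0)]
        intro y _
        exact hg1 y
      rw [← ih _ hlt (hlt.le.trans hξ)]
      congr 1
      ext p
      by_cases hp : p ∈ boundary D X
      · have hle : g p ≤ hX.toFinset.sup g :=
          Finset.le_sup (f := g) (by rw [Set.Finite.mem_toFinset]; exact hp)
        have h1 := (hg2 p hp).1
        have h2 := (hg2 p hp).2 _ hle hlt.le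
        simp only [leaving, Set.mem_ofPred_eq]
        rw [h1, ← h2]
      · have h1 : p ∉ leaving (E ξ) X := fun h2 => hp (by
          rw [← boundary_congr (basic hD h ξ hξ).2]
          exact leaving_subset _ _ h2)
        have h3 : p ∉ leaving (E (hX.toFinset.sup g)) X := fun h2 => hp (by
          rw [← boundary_congr (basic hD h _ (hlt.le.trans hξ)).2]
          exact leaving_subset _ _ h2)
        exact ⟨fun h4 => absurd h4 h1, fun h4 => absurd h4 h3⟩

end general

section criterion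

variable {V : Type u}

/-- Every finite vertex set lies in a finite vertex set with at most `c` boundary edges. -/
def BoundedBoundary (D : V → V → Prop) (c : ℕ) : Prop :=
  ∀ F : Set V, F.Finite → ∃ W : Set V, W.Finite ∧ F ⊆ W ∧ (boundary D W).encard ≤ c

theorem boundary_finite {D : V → V → Prop} {c : ℕ} (hc : BoundedBoundary D c) {X : Set V}
    (hX : X.Finite) : (boundary D X).Finite := by
  obtain ⟨W, h1, h2, h3⟩ := hc X hX
  have h4 : (boundary D W).Finite := Set.finite_of_encard_le_coe h3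
  refine ((hX.prod h1).union h4).subset ?_
  rintro ⟨a, b⟩ ⟨ha, hb, hab⟩
  by_cases hbW : b ∈ W
  · exact Or.inl ⟨ha, hbW⟩
  · exact Or.inr ⟨h2 ha, hbW, hab⟩

theorem infinite_leaving {D E : V → V → Prop} {c : ℕ} (hc : BoundedBoundary D c)
    (hadj : ∀ x y, (E x y ∨ E y x) ↔ (D x y ∨ D y x))
    (hcut : ∀ X : Set V, (boundary D X).Finite → (leaving E X).ncard = (leaving D X).ncard)
    {X : Set V} (hX : (leaving D X).Infinite) : (leaving E X).Infinite := by
  by_contra hfin
  rw [Set.not_infinite] at hfin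
  obtain ⟨t, ht, htc⟩ := hX.exists_subset_card_eq ((leaving E X).ncard + c + 1)
  obtain ⟨W, hW, hsub, hb⟩ := hc (Prod.fst '' (t : Set (V × V)))
    ((Finset.finite_toSet t).image _)
  have hbf : (boundary D W).Finite := Set.finite_of_encard_le_coe hb
  have hbn : (boundary D W).ncard ≤ c := by
    rw [← hbf.cast_ncard_eq] at hb
    exact_mod_cast hb
  have hXW : (boundary D (X ∩ W)).Finite := boundary_finite hc (hW.subset Set.inter_subset_right)
  have h1 : (t : Set (V × V)) ⊆ leaving D (X ∩ W) := by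
    intro p hp
    have := ht hp
    exact ⟨⟨this.1, hsub ⟨p, hp, rfl⟩⟩, fun h => this.2.1 h.1, this.2.2⟩
  have h2 : (leaving E X).ncard + c + 1 ≤ (leaving D (X ∩ W)).ncard := by
    rw [← htc, ← Set.ncard_coe_finset]
    exact Set.ncard_le_ncard h1 (hXW.subset (leaving_subset _ _))
  have h3 : leaving E (X ∩ W) ⊆ leaving E X ∪ boundary D W := by
    rintro ⟨a, b⟩ ⟨ha, hb', hab⟩
    by_cases hbX : b ∈ X
    · refine Or.inr ⟨ha.2, fun hbW => hb' ⟨hbX, hbW⟩, (hadj a b).1 (Or.inl hab)⟩
    · exact Or.inl ⟨ha.1, hbX, hab⟩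
  have h4 : (leaving E (X ∩ W)).ncard ≤ (leaving E X).ncard + (boundary D W).ncard :=
    (Set.ncard_le_ncard h3 (hfin.union hbf)).trans (Set.ncard_union_le _ _)
  rw [hcut _ hXW] at h4
  omega

theorem encard_leaving {D E : V → V → Prop} {c : ℕ} (hc : BoundedBoundary D c)
    (hinf : ∀ X : Set V, (boundary D X).Infinite → (leaving D X).Infinite)
    (hadj : ∀ x y, (E x y ∨ E y x) ↔ (D x y ∨ D y x))
    (hcut : ∀ X : Set V, (boundary D X).Finite → (leaving E X).ncard = (leaving D X).ncard)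
    (X : Set V) : (leaving E X).encard = (leaving D X).encard := by
  by_cases hX : (boundary D X).Finite
  · have h1 : (leaving D X).Finite := hX.subset (leaving_subset _ _)
    have h2 : (leaving E X).Finite := by
      rw [← boundary_congr hadj] at hX
      exact hX.subset (leaving_subset _ _)
    rw [← h1.cast_ncard_eq, ← h2.cast_ncard_eq, hcut X hX]
  · have h1 := hinf X hX
    rw [h1.encard_eq, (infinite_leaving hc hadj hcut h1).encard_eq]

/-- `y` can be reached from `x` iff no vertex set without leaving arcs contains `x` but not `y`. -/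
theorem reach_iff (D : V → V → Prop) (x y : V) :
    Relation.ReflTransGen D x y ↔ ∀ X : Set V, x ∈ X → leaving D X = ∅ → y ∈ X := by
  constructor
  · intro h X hx hX
    induction h with
    | refl => exact hx
    | tail _ hab ih =>
      by_contra hc
      have h9 : ((_, _) : V × V) ∈ leaving D X := ⟨ih, hc, hab⟩
      rw [hX] at h9
      exact h9
  · intro h
    refine h {z | Relation.ReflTransGen D x z} Relation.ReflTransGen.refl ?_
    rw [Set.eq_empty_iff_forall_notMem]
    rintro ⟨a, b⟩ ⟨ha, hb, hab⟩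
    exact hb (Relation.ReflTransGen.tail ha hab)

theorem reach_congr {D E : V → V → Prop} (h : ∀ X : Set V,
    (leaving E X).encard = (leaving D X).encard) (x y : V) :
    Relation.ReflTransGen E x y ↔ Relation.ReflTransGen D x y := by
  rw [reach_iff, reach_iff]
  have : ∀ X : Set V, leaving E X = ∅ ↔ leaving D X = ∅ := by
    intro X
    rw [← Set.encard_eq_zero, h, Set.encard_eq_zero]
  simp only [this]

end criterion

section blowup

/-- The `K`-fold blow-up of `D₀`. -/
def blow (K : ℕ) : ℕ × Fin K → ℕ × Fin K → Prop := fun p q => D₀ p.1 q.1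

theorem blow_oriented (K : ℕ) : IsOriented (blow K) := fun _ _ h1 h2 => D₀_oriented _ _ h1 h2

theorem blow_adj (K : ℕ) (p q : ℕ × Fin K) : (blow K p q ∨ blow K q p) ↔
    (q.1 = p.1 + 1 ∨ q.1 = p.1 + 2 ∨ p.1 = q.1 + 1 ∨ p.1 = q.1 + 2) := D₀_adj _ _

theorem finite_lt (K n : ℕ) : {p : ℕ × Fin K | p.1 < n}.Finite := by
  refine ((Set.finite_Iio n).prod (Set.finite_univ (α := Fin K))).subset ?_
  intro p hp
  exact ⟨hp, trivial⟩

theorem blow_bounded (K : ℕ) : BoundedBoundary (blow K) ((2 * K) * (2 * K)) := by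
  intro F hF
  obtain ⟨n, hn⟩ : ∃ n, ∀ p ∈ F, p.1 < n := by
    obtain ⟨n, hn⟩ := (hF.image Prod.fst).bddAbove
    exact ⟨n + 1, fun p hp => Nat.lt_succ_of_le (hn ⟨p, hp, rfl⟩)⟩
  refine ⟨{p | p.1 < n}, finite_lt K n, fun p hp => hn p hp, ?_⟩
  have hsub : boundary (blow K) {p | p.1 < n} ⊆
      ((((Finset.Ico (n - 2) n) ×ˢ (Finset.univ : Finset (Fin K))) ×ˢ
        ((Finset.Ico n (n + 2)) ×ˢ (Finset.univ : Finset (Fin K))) :
          Finset ((ℕ × Fin K) × (ℕ × Fin K))) : Set ((ℕ × Fin K) × (ℕ × Fin K))) := by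
    rintro ⟨⟨a, i⟩, ⟨b, j⟩⟩ ⟨h1, h2, h3⟩
    rw [blow_adj] at h3
    simp only [Set.mem_ofPred_eq] at h1 h2 h3
    simp only [Finset.coe_product, Finset.coe_Ico, Finset.coe_univ, Set.mem_prod, Set.mem_Ico,
      Set.mem_univ, and_true]
    omega
  refine (Set.encard_le_encard hsub).trans ?_
  rw [Set.encard_coe_eq_coe_finsetCard]
  norm_cast
  rw [Finset.card_product, Finset.card_product, Finset.card_product, Nat.card_Ico, Nat.card_Ico,
    Finset.card_univ, Fintype.card_fin]
  gcongr <;> omega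

theorem blow_infinite {K : ℕ} {X : Set (ℕ × Fin K)} (h1 : X.Infinite) (h2 : Xᶜ.Infinite) :
    (leaving (blow K) X).Infinite := by
  intro hfin
  obtain ⟨n, hn⟩ : ∃ n, ∀ p ∈ leaving (blow K) X, p.1.1 < n := by
    obtain ⟨n, hn⟩ := (hfin.image (fun p => p.1.1)).bddAbove
    exact ⟨n + 1, fun p hp => Nat.lt_succ_of_le (hn ⟨p, hp, rfl⟩)⟩
  obtain ⟨p, hpX, hpn⟩ : ∃ p ∈ X, n ≤ p.1 := by
    by_contra hcon
    push Not at hcon
    exact h1 ((finite_lt K n).subset hcon)
  have key : ∀ m, ∀ j, (p.1 + 1 + m, j) ∈ X := by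
    intro m
    induction m with
    | zero =>
      intro j
      by_contra hj
      have := hn (p, (p.1 + 1 + 0, j)) ⟨hpX, hj, Or.inl rfl⟩
      simp only at this
      omega
    | succ m ih =>
      intro j
      by_contra hj
      have := hn ((p.1 + 1 + m, j), (p.1 + 1 + (m + 1), j)) ⟨ih j, hj, Or.inl rfl⟩
      simp only at this
      omega
  refine h2 ((finite_lt K (p.1 + 1)).subset ?_)
  intro q hq
  simp only [Set.mem_ofPred_eq]
  by_contra hlt
  apply hq
  have := key (q.1 - (p.1 + 1)) q.2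
  rwa [show p.1 + 1 + (q.1 - (p.1 + 1)) = q.1 by omega] at this

theorem blow_hinf {K : ℕ} (X : Set (ℕ × Fin K)) (hX : (boundary (blow K) X).Infinite) :
    (leaving (blow K) X).Infinite := by
  refine blow_infinite (fun h => hX (boundary_finite (blow_bounded K) h)) (fun h => hX ?_)
  have h3 := boundary_finite (blow_bounded K) h
  rw [boundary_compl] at h3
  exact (Set.finite_image_iff Prod.swap_injective.injOn).1 h3

/-- Paths along a ray of the base digraph. -/
theorem ray_count {K M : ℕ} {R : ℕ → ℕ → Prop} {r : ℕ → ℕ} (hr : Function.Injective r)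
    (hR : ∀ t, R (r t) (r (t + 1))) {X : Set (ℕ × Fin K)} (hX : X.Finite)
    (hfin : {p : (ℕ × Fin K) × (ℕ × Fin K) | p.1 ∈ X ∧ p.2 ∉ X ∧ R p.1.1 p.2.1}.Finite)
    (hM : {i : Fin K | (r 0, i) ∈ X}.ncard = M) :
    K * M ≤ {p : (ℕ × Fin K) × (ℕ × Fin K) | p.1 ∈ X ∧ p.2 ∉ X ∧ R p.1.1 p.2.1}.ncard := by
  classical
  let P : Fin K → Fin K → ℕ → ℕ × Fin K := fun i j t => (r t, if t % 2 = 0 then i else j)
  have hleave : ∀ i j, (r 0, i) ∈ X → ∃ t, P i j t ∈ X ∧ P i j (t + 1) ∉ X := by
    intro i j hi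
    by_contra hcon
    push Not at hcon
    have hall : ∀ t, P i j t ∈ X := by
      intro t
      induction t with
      | zero => exact hi
      | succ t ih => exact hcon t ih
    refine Set.infinite_of_injective_forall_mem (f := P i j) ?_ hall hX
    intro a b hab
    exact hr (Prod.mk.inj hab).1
  choose! τ hτ using hleave
  let f : Fin K × Fin K → (ℕ × Fin K) × (ℕ × Fin K) :=
    fun q => (P q.2 q.1 (τ q.2 q.1), P q.2 q.1 (τ q.2 q.1 + 1))
  have hinj : Set.InjOn f (Set.univ ×ˢ {i : Fin K | (r 0, i) ∈ X}) := by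
    rintro ⟨j, i⟩ - ⟨j', i'⟩ - hff
    simp only [f, P, Prod.mk.injEq] at hff
    obtain ⟨⟨h1, h2⟩, ⟨h3, h4⟩⟩ := hff
    have ht := hr h1
    rw [← ht] at h2 h4
    rcases Nat.mod_two_eq_zero_or_one (τ i j) with h5 | h5
    · rw [if_pos h5, if_pos h5] at h2
      rw [if_neg (by omega), if_neg (by omega)] at h4
      rw [h2, h4]
    · rw [if_neg (by omega), if_neg (by omega)] at h2
      rw [if_pos (by omega), if_pos (by omega)] at h4
      rw [h2, h4]
  have himg : f '' (Set.univ ×ˢ {i : Fin K | (r 0, i) ∈ X}) ⊆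
      {p : (ℕ × Fin K) × (ℕ × Fin K) | p.1 ∈ X ∧ p.2 ∉ X ∧ R p.1.1 p.2.1} := by
    rintro _ ⟨⟨j, i⟩, ⟨-, hi⟩, rfl⟩
    exact ⟨(hτ i j hi).1, (hτ i j hi).2, hR _⟩
  calc K * M = ((Set.univ : Set (Fin K)) ×ˢ {i : Fin K | (r 0, i) ∈ X}).ncard := by
        rw [Set.ncard_prod, Set.ncard_univ, Nat.card_eq_fintype_card, Fintype.card_fin, hM]
    _ = (f '' (Set.univ ×ˢ {i : Fin K | (r 0, i) ∈ X})).ncard := hinj.ncard_image.symm
    _ ≤ _ := Set.ncard_le_ncard himg hfin

theorem blow_out {K M : ℕ} {X : Set (ℕ × Fin K)} (hX : X.Finite) (x : ℕ)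
    (hM : {i : Fin K | (x, i) ∈ X}.ncard = M) : K * M ≤ (leaving (blow K) X).ncard :=
  ray_count (R := D₀) (r := fun t => x + t) (fun a b hab => by simpa using hab)
    (fun t => Or.inl rfl) hX
    ((boundary_finite (blow_bounded K) hX).subset
      (fun _ hp => ⟨hp.1, hp.2.1, Or.inl hp.2.2⟩)) hM

theorem leaving_compl_ncard {V : Type u} (D : V → V → Prop) (X : Set V) :
    (leaving D Xᶜ).ncard = {p : V × V | p.1 ∈ X ∧ p.2 ∉ X ∧ D p.2 p.1}.ncard := by
  rw [← Set.ncard_image_of_injective _ Prod.swap_injective]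
  congr 1
  ext ⟨a, b⟩
  simp only [leaving, Set.mem_ofPred_eq, Set.mem_compl_iff, not_not, Set.mem_image, Prod.exists,
    Prod.swap_prod_mk, Prod.mk.injEq]
  constructor
  · rintro ⟨c, d, ⟨h1, h2, h3⟩, rfl, rfl⟩
    exact ⟨h2, h1, h3⟩
  · rintro ⟨h1, h2, h3⟩
    exact ⟨b, a, ⟨h2, h1, h3⟩, rfl, rfl⟩

theorem blow_in {K M : ℕ} {X : Set (ℕ × Fin K)} (hX : X.Finite) (x : ℕ)
    (hM : {i : Fin K | (x, i) ∈ X}.ncard = M) : K * M ≤ (leaving (blow K) Xᶜ).ncard := by
  rw [leaving_compl_ncard]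
  have hfin : {p : (ℕ × Fin K) × (ℕ × Fin K) | p.1 ∈ X ∧ p.2 ∉ X ∧ blow K p.2 p.1}.Finite :=
    (boundary_finite (blow_bounded K) hX).subset (fun p hp => ⟨hp.1, hp.2.1, Or.inr hp.2.2⟩)
  rcases Nat.mod_two_eq_zero_or_one x with hx | hx
  · refine ray_count (R := fun a b => D₀ b a) (r := fun t => x + 2 * t) ?_ ?_ hX hfin
      (by simpa using hM)
    · intro a b hab
      simp only at hab
      omega
    · intro t
      refine Or.inr (Or.inr ⟨by omega, by omega⟩)
  · refine ray_count (R := fun a b => D₀ b a) (r := fun t => if t = 0 then x else x - 1 + 2 * (t - 1))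
      ?_ ?_ hX hfin (by simpa using hM)
    · intro a b hab
      simp only at hab
      split_ifs at hab with h1 h2 h2 <;> omega
    · intro t
      by_cases ht : t = 0
      · subst ht
        refine Or.inl ?_
        simp
        omega
      · refine Or.inr (Or.inr ⟨?_, ?_⟩)
        · simp only [ht, if_false]
          omega
        · simp only [ht, if_false]
          rw [if_neg (by omega)]
          omega

end blowup

section deletion

/-- Reachability in `E` with the vertices of `S` deleted. -/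
def ReachAvoid {V : Type u} (E : V → V → Prop) (S : Set V) (x y : V) : Prop :=
  Relation.ReflTransGen (fun a b => a ∉ S ∧ b ∉ S ∧ E a b) x y

theorem reachAvoid_notMem {V : Type u} {E : V → V → Prop} {S : Set V} {x y : V} (hx : x ∉ S)
    (h : ReachAvoid E S x y) : y ∉ S := by
  induction h with
  | refl => exact hx
  | tail _ hab _ => exact hab.2.1

theorem leaving_reach {V : Type u} {E : V → V → Prop} {S : Set V} {x : V} (hx : x ∉ S)
    {p : V × V} (hp : p ∈ leaving E {y | ReachAvoid E S x y}) : p.2 ∈ S := by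
  by_contra hS
  exact hp.2.1 (Relation.ReflTransGen.tail hp.1 ⟨reachAvoid_notMem hx hp.1, hS, hp.2.2⟩)

theorem finite_small_reach {V : Type u} {E : V → V → Prop}
    (hout : ∀ F : Set V, F.Finite → {y | ∃ x ∈ F, E x y}.Finite)
    (hin : ∀ F : Set V, F.Finite → {p : V × V | p.2 ∈ F ∧ E p.1 p.2}.Finite)
    (hne : ∀ X : Set V, X.Finite → X.Nonempty → (leaving E X).Nonempty)
    (hfc : ∀ X : Set V, (leaving E X).Finite → X.Finite ∨ Xᶜ.Finite)
    {S : Set V} (hS : S.Finite) :
    {x | x ∉ S ∧ {y | ReachAvoid E S x y}.Finite}.Finite := by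
  set Q : Set V := {x | x ∉ S ∧ {y | ReachAvoid E S x y}.Finite} with hQ
  have h1 : (leaving E Q).Finite := by
    refine (hin S hS).subset ?_
    rintro ⟨a, b⟩ ⟨ha, hb, hab⟩
    refine ⟨?_, hab⟩
    by_contra hbS
    simp only at hbS ha hb hab
    refine hb ⟨hbS, ha.2.subset ?_⟩
    intro y hy
    exact Relation.ReflTransGen.head ⟨ha.1, hbS, hab⟩ hy
  rcases hfc Q h1 with h2 | h2
  · exact h2
  by_contra hinf
  obtain ⟨x0, hx0⟩ : Q.Nonempty := Set.Infinite.nonempty hinf
  have hNfin : (insert x0 ({y | ∃ x ∈ Qᶜ, E x y} ∩ Q)).Finite :=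
    ((hout _ h2).subset Set.inter_subset_left).insert x0
  have hNQ : ∀ y ∈ insert x0 ({y | ∃ x ∈ Qᶜ, E x y} ∩ Q), y ∈ Q := by
    rintro y (rfl | hy)
    · exact hx0
    · exact hy.2
  have hU : (Qᶜ ∪ ⋃ y ∈ insert x0 ({y | ∃ x ∈ Qᶜ, E x y} ∩ Q),
      {z | ReachAvoid E S y z}).Finite :=
    h2.union (hNfin.biUnion fun y hy => (hNQ y hy).2)
  obtain ⟨⟨a, b⟩, ha, hb, hab⟩ := hne _ hU ⟨x0, Or.inr (by
    simp only [Set.mem_iUnion]
    exact ⟨x0, Set.mem_insert _ _, Relation.ReflTransGen.refl⟩)⟩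
  simp only [Set.mem_union, Set.mem_iUnion, Set.mem_compl_iff, not_or, not_not] at ha hb hab
  obtain ⟨hbQ, hb2⟩ := hb
  apply hb2
  rcases ha with ha | ⟨y, hy, hya⟩
  · exact ⟨b, Set.mem_insert_of_mem _ ⟨⟨a, ha, hab⟩, hbQ⟩, Relation.ReflTransGen.refl⟩
  · refine ⟨y, hy, Relation.ReflTransGen.tail hya ?_⟩
    exact ⟨reachAvoid_notMem (hNQ y hy).1 hya, hbQ.1, hab⟩

/-- After deleting finitely many vertices, all but finitely many vertices lie in one strong
component. -/
theorem cofinite_component {V : Type u} [Infinite V] {E : V → V → Prop}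
    (hout : ∀ F : Set V, F.Finite → {p : V × V | p.1 ∈ F ∧ E p.1 p.2}.Finite)
    (hin : ∀ F : Set V, F.Finite → {p : V × V | p.2 ∈ F ∧ E p.1 p.2}.Finite)
    (hne : ∀ X : Set V, X.Finite → X.Nonempty → (leaving E X).Nonempty)
    (hne' : ∀ X : Set V, X.Finite → X.Nonempty → (leaving E Xᶜ).Nonempty)
    (hfc : ∀ X : Set V, (leaving E X).Finite → X.Finite ∨ Xᶜ.Finite)
    {S : Set V} (hS : S.Finite) :
    ∃ T : Set V, Tᶜ.Finite ∧ Disjoint S T ∧ ∀ x ∈ T, ∀ y ∈ T, ReachAvoid E S x y := by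
  have hcore : ∀ x y, ReachAvoid (Function.swap E) S x y ↔ ReachAvoid E S y x := by
    intro x y
    unfold ReachAvoid
    rw [← Relation.reflTransGen_swap]
    have : (fun a b => a ∉ S ∧ b ∉ S ∧ Function.swap E a b) =
        Function.swap (fun a b => a ∉ S ∧ b ∉ S ∧ E a b) := by
      funext a b
      simp only [Function.swap, eq_iff_iff]
      tauto
    rw [this]
  have hsw : ∀ X : Set V, leaving (Function.swap E) X = Prod.swap '' leaving E Xᶜ := by
    intro X
    ext ⟨a, b⟩
    simp only [leaving, Function.swap, Set.mem_ofPred_eq, Set.mem_compl_iff, not_not,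
      Set.mem_image, Prod.exists, Prod.swap_prod_mk, Prod.mk.injEq]
    constructor
    · rintro ⟨h1, h2, h3⟩
      exact ⟨b, a, ⟨h2, h1, h3⟩, rfl, rfl⟩
    · rintro ⟨c, d, ⟨h1, h2, h3⟩, rfl, rfl⟩
      exact ⟨h2, h1, h3⟩
  have hfc' : ∀ X : Set V, (leaving (Function.swap E) X).Finite → X.Finite ∨ Xᶜ.Finite := by
    intro X hX
    rw [hsw] at hX
    have := hfc Xᶜ ((Set.finite_image_iff Prod.swap_injective.injOn).1 hX)
    rw [compl_compl] at this
    exact this.symm
  have hQ := finite_small_reach (E := E) (fun F hF => by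
    refine ((hout F hF).image Prod.snd).subset ?_
    rintro y ⟨x, hx, hxy⟩
    exact ⟨(x, y), ⟨hx, hxy⟩, rfl⟩) hin hne hfc hS
  have hQ' := finite_small_reach (E := Function.swap E) (fun F hF => by
    refine ((hin F hF).image Prod.fst).subset ?_
    rintro y ⟨x, hx, hxy⟩
    exact ⟨(y, x), ⟨hx, hxy⟩, rfl⟩) (fun F hF => by
    refine ((hout F hF).image Prod.swap).subset ?_
    rintro ⟨a, b⟩ ⟨hx, hxy⟩
    exact ⟨(b, a), ⟨hx, hxy⟩, rfl⟩) (fun X hX hXn => by
    rw [hsw]
    exact (hne' X hX hXn).image _) hfc' hS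
  refine ⟨(S ∪ {x | x ∉ S ∧ {y | ReachAvoid E S x y}.Finite} ∪
    {x | x ∉ S ∧ {y | ReachAvoid (Function.swap E) S x y}.Finite})ᶜ, ?_, ?_, ?_⟩
  · rw [compl_compl]
    exact (hS.union hQ).union hQ'
  · rw [Set.disjoint_left]
    intro x hx hx'
    exact hx' (Or.inl (Or.inl hx))
  · intro x hx y hy
    simp only [Set.mem_compl_iff, Set.mem_union, Set.mem_ofPred_eq, not_or, not_and] at hx hy
    obtain ⟨⟨hxS, hx1⟩, hx2⟩ := hx
    obtain ⟨⟨hyS, hy1⟩, hy2⟩ := hy
    have hfx : {z | ReachAvoid E S x z}ᶜ.Finite := by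
      refine (hfc {z | ReachAvoid E S x z} ?_).resolve_left (hx1 hxS)
      refine (hin S hS).subset ?_
      intro p hp
      exact ⟨leaving_reach hxS hp, hp.2.2⟩
    have hfy : {z | ReachAvoid (Function.swap E) S y z}ᶜ.Finite := by
      refine (hfc' {z | ReachAvoid (Function.swap E) S y z} ?_).resolve_left (hy2 hyS)
      refine ((hout S hS).image Prod.swap).subset ?_
      rintro ⟨a, b⟩ hp
      exact ⟨(b, a), ⟨leaving_reach hyS hp, hp.2.2⟩, rfl⟩
    obtain ⟨z, hz⟩ := (hfx.union hfy).infinite_compl.nonempty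
    simp only [Set.compl_union, compl_compl, Set.mem_inter_iff, Set.mem_ofPred_eq] at hz
    exact Relation.ReflTransGen.trans hz.1 ((hcore _ _).1 hz.2)

variable {K : ℕ}

theorem deg_bound {X : Set (ℕ × Fin K)} {M : ℕ} (hM : ∀ x, {i : Fin K | (x, i) ∈ X}.ncard ≤ M)
    (S : Finset (ℕ × Fin K)) :
    {p : (ℕ × Fin K) × (ℕ × Fin K) | p.1 ∈ X ∧ p.2 ∈ S ∧ (blow K p.1 p.2 ∨ blow K p.2 p.1)}.ncard ≤
      S.card * (4 * M) := by
  classical
  have hsub : {p : (ℕ × Fin K) × (ℕ × Fin K) | p.1 ∈ X ∧ p.2 ∈ S ∧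
      (blow K p.1 p.2 ∨ blow K p.2 p.1)} ⊆
      ((S.biUnion fun s => ({s.1 + 1, s.1 + 2, s.1 - 1, s.1 - 2} : Finset ℕ).biUnion fun y =>
        (Finset.univ.filter (fun i : Fin K => (y, i) ∈ X)).image (fun i => (((y, i), s) :
          (ℕ × Fin K) × (ℕ × Fin K))) : Finset _) : Set ((ℕ × Fin K) × (ℕ × Fin K))) := by
    rintro ⟨⟨a, i⟩, s⟩ ⟨h1, h2, h3⟩
    rw [blow_adj] at h3
    simp only at h1 h2 h3
    simp only [Finset.coe_biUnion, Set.mem_iUnion, Finset.mem_coe, Finset.mem_image,
      Finset.mem_filter, Finset.mem_univ, true_and, Finset.mem_insert, Finset.mem_singleton,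
      exists_prop]
    exact ⟨s, h2, a, by omega, i, h1, rfl⟩
  refine (Set.ncard_le_ncard hsub (Finset.finite_toSet _)).trans ?_
  rw [Set.ncard_coe_finset]
  refine Finset.card_biUnion_le_card_mul _ _ _ fun s _ => ?_
  refine (Finset.card_biUnion_le_card_mul _ _ M fun y _ => ?_).trans
    (Nat.mul_le_mul_right _ Finset.card_le_four)
  refine Finset.card_image_le.trans ?_
  have := hM y
  rwa [show {i : Fin K | (y, i) ∈ X} =
    ((Finset.univ.filter (fun i : Fin K => (y, i) ∈ X) : Finset (Fin K)) : Set (Fin K)) by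
      ext i; simp, Set.ncard_coe_finset] at this

theorem exists_max_column {X : Set (ℕ × Fin K)} (hX : X.Finite) (hne : X.Nonempty) :
    ∃ x M, {i : Fin K | (x, i) ∈ X}.ncard = M ∧ 0 < M ∧
      ∀ y, {i : Fin K | (y, i) ∈ X}.ncard ≤ M := by
  obtain ⟨p, hp, hmax⟩ := Set.exists_max_image X
    (fun p => {i : Fin K | (p.1, i) ∈ X}.ncard) hX hne
  refine ⟨p.1, _, rfl, ?_, fun y => ?_⟩
  · rw [Set.ncard_pos]
    exact ⟨p.2, hp⟩
  · by_cases hy : ∃ i, (y, i) ∈ X
    · obtain ⟨i, hi⟩ := hy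
      exact hmax (y, i) hi
    · push Not at hy
      rw [show {i : Fin K | (y, i) ∈ X} = ∅ from Set.eq_empty_iff_forall_notMem.2 hy,
        Set.ncard_empty]
      exact Nat.zero_le _

theorem blow_out_pos {X : Set (ℕ × Fin K)} (hX : X.Finite) (hne : X.Nonempty) :
    K ≤ (leaving (blow K) X).ncard := by
  obtain ⟨x, M, h1, h2, -⟩ := exists_max_column hX hne
  exact (Nat.le_mul_of_pos_right K h2).trans (blow_out hX x h1)

theorem blow_in_pos {X : Set (ℕ × Fin K)} (hX : X.Finite) (hne : X.Nonempty) :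
    K ≤ (leaving (blow K) Xᶜ).ncard := by
  obtain ⟨x, M, h1, h2, -⟩ := exists_max_column hX hne
  exact (Nat.le_mul_of_pos_right K h2).trans (blow_in hX x h1)

/-- The blow-up is `K`-arc-strong. -/
theorem blow_arcStrong {X : Set (ℕ × Fin K)} (hne : X.Nonempty) (hX : X ≠ Set.univ) :
    (K : ℕ∞) ≤ (leaving (blow K) X).encard := by
  by_cases h1 : X.Finite
  · rw [← ((boundary_finite (blow_bounded K) h1).subset (leaving_subset _ _)).cast_ncard_eq]
    exact_mod_cast blow_out_pos h1 hne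
  by_cases h2 : Xᶜ.Finite
  · have h3 := blow_in_pos h2 (Set.nonempty_compl.2 hX)
    rw [compl_compl] at h3
    have h4 := boundary_finite (blow_bounded K) h2
    rw [boundary_compl] at h4
    have h5 := (Set.finite_image_iff Prod.swap_injective.injOn).1 h4
    rw [← (h5.subset (leaving_subset _ _)).cast_ncard_eq]
    exact_mod_cast h3
  · rw [(blow_infinite h1 h2).encard_eq]
    exact le_top

variable {E : ℕ × Fin K → ℕ × Fin K → Prop}

theorem no_sep (hadj : ∀ x y, (E x y ∨ E y x) ↔ (blow K x y ∨ blow K y x))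
    (hcut : ∀ X, (boundary (blow K) X).Finite → (leaving E X).ncard = (leaving (blow K) X).ncard)
    {S : Finset (ℕ × Fin K)} (hS : 4 * S.card < K) {X : Set (ℕ × Fin K)} (hX : X.Finite)
    (hne : X.Nonempty) : ∃ p ∈ leaving E X, p.2 ∉ S := by
  by_contra hcon
  push Not at hcon
  obtain ⟨x, M, h1, h2, h3⟩ := exists_max_column hX hne
  have hb := boundary_finite (blow_bounded K) hX
  have h4 := blow_out hX x h1
  rw [← hcut X hb] at h4
  have h5 : leaving E X ⊆ {p : (ℕ × Fin K) × (ℕ × Fin K) | p.1 ∈ X ∧ p.2 ∈ S ∧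
      (blow K p.1 p.2 ∨ blow K p.2 p.1)} := fun p hp =>
    ⟨hp.1, hcon p hp, (hadj _ _).1 (Or.inl hp.2.2)⟩
  have h6 : {p : (ℕ × Fin K) × (ℕ × Fin K) | p.1 ∈ X ∧ p.2 ∈ S ∧
      (blow K p.1 p.2 ∨ blow K p.2 p.1)}.Finite :=
    (hX.prod (Finset.finite_toSet S)).subset fun p hp => ⟨hp.1, hp.2.1⟩
  have h7 := (h4.trans (Set.ncard_le_ncard h5 h6)).trans (deg_bound h3 S)
  have h8 : S.card * (4 * M) < K * M := by
    have : S.card * (4 * M) = (4 * S.card) * M := by ring
    rw [this]
    exact Nat.mul_lt_mul_of_pos_right hS h2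
  omega

theorem no_sep' (hadj : ∀ x y, (E x y ∨ E y x) ↔ (blow K x y ∨ blow K y x))
    (hcut : ∀ X, (boundary (blow K) X).Finite → (leaving E X).ncard = (leaving (blow K) X).ncard)
    {S : Finset (ℕ × Fin K)} (hS : 4 * S.card < K) {X : Set (ℕ × Fin K)} (hX : X.Finite)
    (hne : X.Nonempty) : ∃ p ∈ leaving E Xᶜ, p.1 ∉ S := by
  by_contra hcon
  push Not at hcon
  obtain ⟨x, M, h1, h2, h3⟩ := exists_max_column hX hne
  have hb := boundary_finite (blow_bounded K) hX
  have hb' : (boundary (blow K) Xᶜ).Finite := by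
    rw [boundary_compl]
    exact hb.image _
  have h4 := blow_in hX x h1
  rw [← hcut _ hb', leaving_compl_ncard] at h4
  have h5 : {p : (ℕ × Fin K) × (ℕ × Fin K) | p.1 ∈ X ∧ p.2 ∉ X ∧ E p.2 p.1} ⊆
      {p : (ℕ × Fin K) × (ℕ × Fin K) | p.1 ∈ X ∧ p.2 ∈ S ∧
      (blow K p.1 p.2 ∨ blow K p.2 p.1)} := fun p hp =>
    ⟨hp.1, hcon (p.2, p.1) ⟨hp.2.1, fun h => h hp.1, hp.2.2⟩, (hadj _ _).1 (Or.inr hp.2.2)⟩
  have h6 : {p : (ℕ × Fin K) × (ℕ × Fin K) | p.1 ∈ X ∧ p.2 ∈ S ∧
      (blow K p.1 p.2 ∨ blow K p.2 p.1)}.Finite :=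
    (hX.prod (Finset.finite_toSet S)).subset fun p hp => ⟨hp.1, hp.2.1⟩
  have h7 := (h4.trans (Set.ncard_le_ncard h5 h6)).trans (deg_bound h3 S)
  have h8 : S.card * (4 * M) < K * M := by
    have : S.card * (4 * M) = (4 * S.card) * M := by ring
    rw [this]
    exact Nat.mul_lt_mul_of_pos_right hS h2
  omega

theorem arcs_finite (hadj : ∀ x y, (E x y ∨ E y x) ↔ (blow K x y ∨ blow K y x))
    {F : Set (ℕ × Fin K)} (hF : F.Finite) :
    {p : (ℕ × Fin K) × (ℕ × Fin K) | (p.1 ∈ F ∨ p.2 ∈ F) ∧ E p.1 p.2}.Finite := by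
  have hb := boundary_finite (blow_bounded K) hF
  refine ((hb.union (hb.image Prod.swap)).union (hF.prod hF)).subset ?_
  rintro ⟨a, b⟩ ⟨h1, h2⟩
  have h3 := (hadj a b).1 (Or.inl h2)
  by_cases ha : a ∈ F <;> by_cases hb : b ∈ F
  · exact Or.inr ⟨ha, hb⟩
  · exact Or.inl (Or.inl ⟨ha, hb, h3⟩)
  · exact Or.inl (Or.inr ⟨(b, a), ⟨hb, ha, h3.symm⟩, rfl⟩)
  · simp only at h1
    tauto

theorem finite_or_cofinite (hadj : ∀ x y, (E x y ∨ E y x) ↔ (blow K x y ∨ blow K y x))
    (hcut : ∀ X, (boundary (blow K) X).Finite → (leaving E X).ncard = (leaving (blow K) X).ncard)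
    (X : Set (ℕ × Fin K)) (hX : (leaving E X).Finite) : X.Finite ∨ Xᶜ.Finite := by
  by_contra hcon
  rw [not_or] at hcon
  exact infinite_leaving (blow_bounded K) hadj hcut (blow_infinite hcon.1 hcon.2) hX

theorem strong_deleted (hadj : ∀ x y, (E x y ∨ E y x) ↔ (blow K x y ∨ blow K y x))
    (hcut : ∀ X, (boundary (blow K) X).Finite → (leaving E X).ncard = (leaving (blow K) X).ncard)
    {S : Finset (ℕ × Fin K)} (hS : 4 * S.card < K) : StrongOn E ((S : Set (ℕ × Fin K))ᶜ) := by
  intro x hx y hy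
  show ReachAvoid E (S : Set (ℕ × Fin K)) x y
  by_contra hxy
  set R : Set (ℕ × Fin K) := {z | ReachAvoid E (S : Set (ℕ × Fin K)) x z} with hR
  have hleave : ∀ p ∈ leaving E R, p.2 ∈ (S : Set (ℕ × Fin K)) := fun p hp => leaving_reach hx hp
  have hfin : (leaving E R).Finite :=
    (arcs_finite hadj (Finset.finite_toSet S)).subset fun p hp => ⟨Or.inr (hleave p hp), hp.2.2⟩
  rcases finite_or_cofinite hadj hcut R hfin with h1 | h1
  · obtain ⟨p, hp, hpS⟩ := no_sep hadj hcut hS h1 ⟨x, Relation.ReflTransGen.refl⟩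
    exact hpS (hleave p hp)
  · obtain ⟨⟨a, b⟩, hp, hpS⟩ := no_sep' hadj hcut hS
      (X := (R ∪ (S : Set (ℕ × Fin K)))ᶜ) (h1.subset (Set.compl_subset_compl.2
        Set.subset_union_left)) ⟨y, fun h => h.elim hxy hy⟩
    rw [compl_compl] at hp
    obtain ⟨ha, hb, hab⟩ := hp
    simp only [Set.mem_union, not_or] at ha hb hab hpS
    have haR : a ∈ R := ha.resolve_right hpS
    exact hb.2 (hleave (a, b) ⟨haR, hb.1, hab⟩)

theorem robust [NeZero K] (hadj : ∀ x y, (E x y ∨ E y x) ↔ (blow K x y ∨ blow K y x))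
    (hcut : ∀ X, (boundary (blow K) X).Finite → (leaving E X).ncard = (leaving (blow K) X).ncard)
    (S : Finset (ℕ × Fin K)) :
    ∃ T : Set (ℕ × Fin K), Tᶜ.Finite ∧ Disjoint (S : Set (ℕ × Fin K)) T ∧
      ∀ x ∈ T, ∀ y ∈ T, ReachAvoid E (S : Set (ℕ × Fin K)) x y := by
  have hK : 0 < K := Nat.pos_of_ne_zero (NeZero.ne K)
  refine cofinite_component
    (fun F hF => (arcs_finite hadj hF).subset fun p hp => ⟨Or.inl hp.1, hp.2⟩)
    (fun F hF => (arcs_finite hadj hF).subset fun p hp => ⟨Or.inr hp.1, hp.2⟩)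
    (fun X hX hne => ?_) (fun X hX hne => ?_) (finite_or_cofinite hadj hcut)
    (Finset.finite_toSet S)
  · obtain ⟨p, hp, -⟩ := no_sep hadj hcut (S := ∅) (by simpa using hK) hX hne
    exact ⟨p, hp⟩
  · obtain ⟨p, hp, -⟩ := no_sep' hadj hcut (S := ∅) (by simpa using hK) hX hne
    exact ⟨p, hp⟩

end deletion

section glue

/-- The class of `x0` under mutual reachability is a strong component. -/
theorem isStrongComponent_class {V : Type u} (R : V → V → Prop) (x0 : V) :
    IsStrongComponent R {z | Relation.ReflTransGen R x0 z ∧ Relation.ReflTransGen R z x0} := by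
  have hrestrict : ∀ (T : Set V) x y, Relation.ReflTransGen (fun a b => a ∈ T ∧ b ∈ T ∧ R a b) x y →
      Relation.ReflTransGen R x y := fun T x y h =>
    Relation.ReflTransGen.mono (fun a b hab => hab.2.2) _ _ h
  refine ⟨⟨x0, Relation.ReflTransGen.refl, Relation.ReflTransGen.refl⟩, ?_, ?_⟩
  · rintro x ⟨hx1, hx2⟩ y ⟨hy1, hy2⟩
    have hxy : Relation.ReflTransGen R x y := hx2.trans hy1
    have key : ∀ z, Relation.ReflTransGen R x z → Relation.ReflTransGen R z x0 →
        Relation.ReflTransGen (fun a b =>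
          a ∈ {z | Relation.ReflTransGen R x0 z ∧ Relation.ReflTransGen R z x0} ∧
          b ∈ {z | Relation.ReflTransGen R x0 z ∧ Relation.ReflTransGen R z x0} ∧ R a b) x z := by
      intro z hz
      induction hz with
      | refl => exact fun _ => Relation.ReflTransGen.refl
      | tail hab hbc ih =>
        intro hc
        have hb := Relation.ReflTransGen.head hbc hc
        exact Relation.ReflTransGen.tail (ih hb)
          ⟨⟨hx1.trans hab, hb⟩, ⟨(hx1.trans hab).tail hbc, hc⟩, hbc⟩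
    exact key y hxy hy2
  · intro T hT hs
    refine Set.Subset.antisymm (fun z hz => ?_) hT
    have h0 : x0 ∈ T := hT ⟨Relation.ReflTransGen.refl, Relation.ReflTransGen.refl⟩
    exact ⟨hrestrict T _ _ (hs x0 h0 z hz), hrestrict T _ _ (hs z hz x0 h0)⟩

theorem univ_component {V : Type u} [Nonempty V] {E : V → V → Prop}
    (h : ∀ X : Set V, X.Nonempty → X ≠ Set.univ → (leaving E X).Nonempty) :
    IsStrongComponent E Set.univ := by
  have hall : ∀ x y, Relation.ReflTransGen E x y := by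
    intro x y
    by_contra hxy
    obtain ⟨⟨a, b⟩, ha, hb, hab⟩ := h {z | Relation.ReflTransGen E x z}
      ⟨x, Relation.ReflTransGen.refl⟩ (fun h => hxy (by
        have : y ∈ {z | Relation.ReflTransGen E x z} := h ▸ Set.mem_univ y
        exact this))
    exact hb (Relation.ReflTransGen.tail ha hab)
  have := isStrongComponent_class E (Classical.arbitrary V)
  rwa [show {z | Relation.ReflTransGen E (Classical.arbitrary V) z ∧
    Relation.ReflTransGen E z (Classical.arbitrary V)} = Set.univ from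
    Set.eq_univ_of_forall fun z => ⟨hall _ _, hall _ _⟩] at this

/-- The non-root vertices of the blow-up. -/
abbrev V₁ (k : ℕ) : Type := {a : ℕ × Fin (k + 1) // a ≠ (0, 0)}

theorem exists_equiv (V : Type u) [Infinite V] (k : ℕ) : Nonempty (V ≃ Option (V × V₁ k)) := by
  rw [← Cardinal.eq]
  apply le_antisymm
  · refine Cardinal.mk_le_of_injective (f := fun v => some (v, ⟨(1, 0), by simp⟩)) ?_
    intro a b hab
    simpa using hab
  · rw [Cardinal.mk_option, Cardinal.mk_prod, Cardinal.lift_uzero]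
    have h0 : Cardinal.aleph0 ≤ Cardinal.mk V := Cardinal.infinite_iff.1 inferInstance
    have h1 : Cardinal.lift.{u} (Cardinal.mk (V₁ k)) ≤ Cardinal.mk V := by
      refine le_trans ?_ h0
      rw [Cardinal.lift_le_aleph0]
      exact Cardinal.mk_le_aleph0
    have h2 : Cardinal.mk V * Cardinal.lift.{u} (Cardinal.mk (V₁ k)) ≤ Cardinal.mk V :=
      (mul_le_mul_right h1 _).trans (Cardinal.mul_eq_self h0).le
    exact Cardinal.add_le_of_le h0 h2 (Cardinal.one_lt_aleph0.le.trans h0)

variable {V : Type u} {k : ℕ} (e : V ≃ Option (V × V₁ k))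

open Classical in
/-- Projection to the block of `i`. -/
noncomputable def proj (i x : V) : ℕ × Fin (k + 1) :=
  match e x with
  | none => (0, 0)
  | some (j, w) => if j = i then w.1 else (0, 0)

open Classical in
/-- The block of `i`. -/
noncomputable def sec (i : V) (a : ℕ × Fin (k + 1)) : V :=
  if h : a = (0, 0) then e.symm none else e.symm (some (i, ⟨a, h⟩))

/-- Copies of the blow-up glued at one vertex. -/
def glued : V → V → Prop := fun x y => ∃ i a b, sec e i a = x ∧ sec e i b = y ∧ blow (k + 1) a b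

theorem proj_sec (i : V) (a : ℕ × Fin (k + 1)) : proj e i (sec e i a) = a := by
  unfold proj sec
  by_cases h : a = (0, 0)
  · rw [dif_pos h, Equiv.apply_symm_apply, h]
  · rw [dif_neg h, Equiv.apply_symm_apply]
    simp

theorem proj_sec_ne {i j : V} (hij : i ≠ j) (a : ℕ × Fin (k + 1)) :
    proj e i (sec e j a) = (0, 0) := by
  unfold proj sec
  by_cases h : a = (0, 0)
  · rw [dif_pos h, Equiv.apply_symm_apply]
  · rw [dif_neg h, Equiv.apply_symm_apply]
    simp [hij.symm]

theorem sec_injective (i : V) : Function.Injective (sec e i) :=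
  Function.LeftInverse.injective (proj_sec e i)

theorem blow_irrefl (K : ℕ) (a : ℕ × Fin K) : ¬ blow K a a := fun h => blow_oriented K _ _ h h

theorem glued_oriented : IsOriented (glued e) := by
  rintro x y ⟨j, a, b, rfl, rfl, hab⟩ ⟨j', a', b', h1, h2, hab'⟩
  by_cases hj : j = j'
  · subst hj
    rw [sec_injective e j h1, sec_injective e j h2] at hab'
    exact blow_oriented _ _ _ hab hab'
  · have h3 := congrArg (proj e j) h1
    have h4 := congrArg (proj e j) h2
    rw [proj_sec_ne e hj, proj_sec] at h3 h4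
    rw [← h3, ← h4] at hab
    exact blow_irrefl _ _ hab

theorem glued_sec (i : V) (a b : ℕ × Fin (k + 1)) :
    glued e (sec e i a) (sec e i b) ↔ blow (k + 1) a b := by
  constructor
  · rintro ⟨j, a', b', h1, h2, hab⟩
    by_cases hj : j = i
    · subst hj
      rwa [sec_injective e j h1, sec_injective e j h2] at hab
    · have h3 := congrArg (proj e j) h1
      have h4 := congrArg (proj e j) h2
      rw [proj_sec_ne e hj, proj_sec] at h3 h4
      rw [h3, h4] at hab
      exact absurd hab (blow_irrefl _ _)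
  · intro h
    exact ⟨i, a, b, rfl, rfl, h⟩

/-- An edge which is not contracted by `proj e i` lies in the block of `i`. -/
theorem glued_edge {x y : V} (h : glued e x y) (i : V) (hne : proj e i x ≠ proj e i y) :
    sec e i (proj e i x) = x ∧ sec e i (proj e i y) = y := by
  obtain ⟨j, a, b, rfl, rfl, -⟩ := h
  by_cases hj : i = j
  · subst hj
    rw [proj_sec, proj_sec]
    exact ⟨rfl, rfl⟩
  · rw [proj_sec_ne e hj, proj_sec_ne e hj] at hne
    exact absurd rfl hne

theorem leaving_proj {G : V → V → Prop}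
    (hG : ∀ x y, G x y → glued e x y ∨ glued e y x) (i : V) (X : Set (ℕ × Fin (k + 1))) :
    leaving G (proj e i ⁻¹' X) =
      Prod.map (sec e i) (sec e i) '' leaving (fun a b => G (sec e i a) (sec e i b)) X := by
  ext ⟨x, y⟩
  constructor
  · rintro ⟨h1, h2, h3⟩
    simp only [Set.mem_preimage] at h1 h2 h3
    have hne : proj e i x ≠ proj e i y := fun h => h2 (h ▸ h1)
    have h4 : sec e i (proj e i x) = x ∧ sec e i (proj e i y) = y := by
      rcases hG x y h3 with h | h
      · exact glued_edge e h i hne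
      · exact (glued_edge e h i hne.symm).symm
    refine ⟨(proj e i x, proj e i y), ⟨h1, h2, ?_⟩, Prod.ext h4.1 h4.2⟩
    simp only
    rw [h4.1, h4.2]
    exact h3
  · rintro ⟨⟨a, b⟩, ⟨h1, h2, h3⟩, hxy⟩
    obtain ⟨rfl, rfl⟩ := Prod.mk.inj hxy
    refine ⟨?_, ?_, h3⟩
    · rw [Set.mem_preimage, proj_sec]
      exact h1
    · rw [Set.mem_preimage, proj_sec]
      exact h2

theorem exists_split {X : Set V} (hne : X.Nonempty) (hX : X ≠ Set.univ) :
    ∃ i a b, sec e i a ∈ X ∧ sec e i b ∉ X := by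
  have hsec : ∀ x, x ≠ e.symm none → ∃ i a, sec e i a = x := by
    intro x hx
    rcases h : e x with _ | ⟨i, w⟩
    · exact absurd ((Equiv.symm_apply_eq e).2 h.symm).symm hx
    · refine ⟨i, w.1, ?_⟩
      unfold sec
      rw [dif_neg w.2, Equiv.symm_apply_eq, h]
  have h0 : ∀ i, sec e i (0, 0) = e.symm none := fun i => by
    unfold sec
    rw [dif_pos rfl]
  by_cases hr : e.symm none ∈ X
  · obtain ⟨y, hy⟩ := Set.nonempty_compl.2 hX
    obtain ⟨i, b, rfl⟩ := hsec y (fun h => hy (h ▸ hr))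
    exact ⟨i, (0, 0), b, by rw [h0]; exact hr, hy⟩
  · obtain ⟨x, hx⟩ := hne
    obtain ⟨i, a, rfl⟩ := hsec x (fun h => hr (h ▸ hx))
    exact ⟨i, a, (0, 0), hx, by rw [h0]; exact hr⟩

theorem glued_arcStrong {θ : Ordinal.{v}} {C E : Ordinal.{v} → V → V → Prop}
    (h : IsReversalSequence (glued e) θ C E) {X : Set V} (hne : X.Nonempty)
    (hX : X ≠ Set.univ) : ((k + 1 : ℕ) : ℕ∞) ≤ (leaving (E θ) X).encard := by
  obtain ⟨i, a, b, ha, hb⟩ := exists_split e hne hX
  obtain ⟨hor, hadj⟩ := basic (glued_oriented e) h θ le_rfl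
  have hadj' : ∀ a b, (E θ (sec e i a) (sec e i b) ∨ E θ (sec e i b) (sec e i a)) ↔
      (blow (k + 1) a b ∨ blow (k + 1) b a) := by
    intro a b
    rw [hadj, glued_sec, glued_sec]
  have hinj : Function.Injective (Prod.map (sec e i) (sec e i)) :=
    (sec_injective e i).prodMap (sec_injective e i)
  have hcut : ∀ Y, (boundary (blow (k + 1)) Y).Finite →
      (leaving (fun a b => E θ (sec e i a) (sec e i b)) Y).ncard =
        (leaving (blow (k + 1)) Y).ncard := by
    intro Y hY
    have h1 : boundary (glued e) (proj e i ⁻¹' Y) =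
        Prod.map (sec e i) (sec e i) '' boundary (blow (k + 1)) Y := by
      have h2 := leaving_proj e (G := fun x y => glued e x y ∨ glued e y x)
        (fun x y hxy => hxy) i Y
      simp only [glued_sec] at h2
      exact h2
    have h3 := cut_invariant (glued_oriented e) h (proj e i ⁻¹' Y) (by
      rw [h1]
      exact hY.image _) θ le_rfl
    have h4 := leaving_proj e (G := glued e) (fun x y hxy => Or.inl hxy) i Y
    simp only [glued_sec] at h4
    rw [leaving_proj e (G := E θ) (fun x y hxy => (hadj x y).1 (Or.inl hxy)), h4,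
      Set.ncard_image_of_injective _ hinj, Set.ncard_image_of_injective _ hinj] at h3
    exact h3
  have h5 := encard_leaving (blow_bounded (k + 1)) blow_hinf hadj' hcut (sec e i ⁻¹' X)
  have h6 : ((k + 1 : ℕ) : ℕ∞) ≤ (leaving (blow (k + 1)) (sec e i ⁻¹' X)).encard :=
    blow_arcStrong ⟨a, ha⟩ (fun h => hb (by
      have : b ∈ sec e i ⁻¹' X := h ▸ Set.mem_univ b
      exact this))
  rw [← h5, ← hinj.encard_image] at h6
  refine h6.trans (Set.encard_le_encard ?_)
  rintro _ ⟨⟨c, d⟩, hp, rfl⟩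
  exact hp

end glue

section ladder

/-- An orientation of the infinite ladder: the upper ray goes out, the lower ray comes back, and
the rungs alternate. -/
def ladder : ℕ × Bool → ℕ × Bool → Prop := fun p q =>
  (p.2 = false ∧ q.2 = false ∧ q.1 = p.1 + 1) ∨ (p.2 = true ∧ q.2 = true ∧ p.1 = q.1 + 1) ∨
  (p.2 = true ∧ q.2 = false ∧ p.1 = q.1 ∧ p.1 % 2 = 0) ∨
  (p.2 = false ∧ q.2 = true ∧ p.1 = q.1 ∧ p.1 % 2 = 1)

theorem ladder_oriented : IsOriented ladder := by
  rintro ⟨a, b⟩ ⟨c, d⟩ h1 h2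
  unfold ladder at h1 h2
  simp only at h1 h2
  cases b <;> cases d <;> simp at h1 h2 <;> omega

theorem ladder_degree (x : ℕ × Bool) : {y | ladder x y ∨ ladder y x}.encard ≤ 3 := by
  have hsub : {y | ladder x y ∨ ladder y x} ⊆ {(x.1 + 1, x.2), (x.1 - 1, x.2), (x.1, !x.2)} := by
    rintro ⟨c, d⟩ h
    obtain ⟨a, b⟩ := x
    simp only [ladder, Set.mem_ofPred_eq] at h
    simp only [Set.mem_insert_iff, Set.mem_singleton_iff, Prod.mk.injEq]
    cases b <;> cases d <;> simp at h ⊢ <;> omega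
  refine (Set.encard_le_encard hsub).trans ?_
  refine (Set.encard_insert_le _ _).trans ?_
  refine (add_le_add_left ((Set.encard_insert_le _ _).trans
    (add_le_add_left (Set.encard_singleton _).le 1)) 1).trans ?_
  norm_num

theorem ladder_finite_lt (n : ℕ) : {p : ℕ × Bool | p.1 < n}.Finite := by
  refine ((Set.finite_Iio n).prod (Set.finite_univ (α := Bool))).subset ?_
  intro p hp
  exact ⟨hp, trivial⟩

theorem ladder_bounded : BoundedBoundary ladder 2 := by
  intro F hF
  obtain ⟨n, hn⟩ : ∃ n, ∀ p ∈ F, p.1 < n := by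
    obtain ⟨n, hn⟩ := (hF.image Prod.fst).bddAbove
    exact ⟨n + 1, fun p hp => Nat.lt_succ_of_le (hn ⟨p, hp, rfl⟩)⟩
  refine ⟨{p | p.1 < n}, ladder_finite_lt n, fun p hp => hn p hp, ?_⟩
  have hsub : boundary ladder {p | p.1 < n} ⊆
      {((n - 1, false), (n, false)), ((n - 1, true), (n, true))} := by
    rintro ⟨⟨a, b⟩, ⟨c, d⟩⟩ ⟨h1, h2, h3⟩
    simp only [ladder, Set.mem_ofPred_eq] at h1 h2 h3
    simp only [Set.mem_insert_iff, Set.mem_singleton_iff, Prod.mk.injEq]
    cases b <;> cases d <;> simp at h3 ⊢ <;> omega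
  refine (Set.encard_le_encard hsub).trans ((Set.encard_insert_le _ _).trans ?_)
  rw [Set.encard_singleton]
  norm_num

theorem ladder_hinf (X : Set (ℕ × Bool)) (hX : (boundary ladder X).Infinite) :
    (leaving ladder X).Infinite := by
  intro hfin
  apply hX
  obtain ⟨n, hn⟩ : ∃ n, ∀ p ∈ leaving ladder X, p.1.1 < n := by
    obtain ⟨n, hn⟩ := (hfin.image (fun p => p.1.1)).bddAbove
    exact ⟨n + 1, fun p hp => Nat.lt_succ_of_le (hn ⟨p, hp, rfl⟩)⟩
  have up : ∀ m, n ≤ m → (m, false) ∈ X → ∀ t, (m + t, false) ∈ X := by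
    intro m hm h t
    induction t with
    | zero => exact h
    | succ t ih =>
      by_contra hc
      have := hn ((m + t, false), (m + (t + 1), false)) ⟨ih, hc, Or.inl ⟨rfl, rfl, rfl⟩⟩
      simp only at this
      omega
  have across : ∀ m, n ≤ m → m % 2 = 1 → (m, false) ∈ X → (m, true) ∈ X := by
    intro m hm h1 h
    by_contra hc
    have := hn ((m, false), (m, true)) ⟨h, hc, Or.inr (Or.inr (Or.inr ⟨rfl, rfl, rfl, h1⟩))⟩
    simp only at this
    omega
  have across' : ∀ m, n ≤ m → m % 2 = 0 → (m, true) ∈ X → (m, false) ∈ X := by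
    intro m hm h1 h
    by_contra hc
    have := hn ((m, true), (m, false)) ⟨h, hc, Or.inr (Or.inr (Or.inl ⟨rfl, rfl, rfl, h1⟩))⟩
    simp only at this
    omega
  have down1 : ∀ m, n ≤ m → (m + 1, true) ∈ X → (m, true) ∈ X := by
    intro m hm h
    by_contra hc
    have := hn ((m + 1, true), (m, true)) ⟨h, hc, Or.inr (Or.inl ⟨rfl, rfl, rfl⟩)⟩
    simp only at this
    omega
  have down : ∀ m t, n ≤ m → (m + t, true) ∈ X → (m, true) ∈ X := by
    intro m t hm
    induction t with
    | zero => exact fun h => h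
    | succ t ih => exact fun h => ih (down1 (m + t) (by omega) h)
  by_cases hex : ∃ m, n ≤ m ∧ (m, false) ∈ X
  · obtain ⟨m, hm, hmX⟩ := hex
    have hco : Xᶜ.Finite := by
      refine (ladder_finite_lt (m + 1)).subset ?_
      rintro ⟨a, b⟩ hab
      simp only [Set.mem_ofPred_eq]
      by_contra hlt
      apply hab
      cases b
      · have := up m hm hmX (a - m)
        rwa [show m + (a - m) = a by omega] at this
      · have h1 := up m hm hmX (2 * a + 1 - m)
        rw [show m + (2 * a + 1 - m) = 2 * a + 1 by omega] at h1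
        have h2 := across _ (by omega) (by omega) h1
        refine down a (a + 1) (by omega) ?_
        rwa [show a + (a + 1) = 2 * a + 1 by omega]
    have h3 := boundary_finite ladder_bounded hco
    rw [boundary_compl] at h3
    exact (Set.finite_image_iff Prod.swap_injective.injOn).1 h3
  · push Not at hex
    refine boundary_finite ladder_bounded ((ladder_finite_lt (n + 1)).subset ?_)
    rintro ⟨a, b⟩ hab
    simp only [Set.mem_ofPred_eq]
    by_contra hlt
    cases b
    · exact hex a (by omega) hab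
    · rcases Nat.mod_two_eq_zero_or_one a with h | h
      · exact hex a (by omega) (across' a (by omega) h hab)
      · have h1 : (a - 1, true) ∈ X := by
          refine down1 (a - 1) (by omega) ?_
          rwa [show a - 1 + 1 = a by omega]
        exact hex (a - 1) (by omega) (across' (a - 1) (by omega) (by omega) h1)

theorem ladder_strong : IsStrongComponent ladder Set.univ := by
  have out : ∀ n, Relation.ReflTransGen ladder (0, false) (n, false) := by
    intro n
    induction n with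
    | zero => exact Relation.ReflTransGen.refl
    | succ n ih => exact ih.tail (Or.inl ⟨rfl, rfl, rfl⟩)
  have back : ∀ m t, Relation.ReflTransGen ladder (m + t, true) (m, true) := by
    intro m t
    induction t with
    | zero => exact Relation.ReflTransGen.refl
    | succ t ih => exact Relation.ReflTransGen.head (Or.inr (Or.inl ⟨rfl, rfl, rfl⟩)) ih
  have fromtrue : ∀ n, Relation.ReflTransGen ladder (n, true) (0, false) := by
    intro n
    have := back 0 n
    rw [Nat.zero_add] at this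
    exact this.tail (Or.inr (Or.inr (Or.inl ⟨rfl, rfl, rfl, rfl⟩)))
  have rung : ∀ n, n % 2 = 1 → ladder (n, false) (n, true) := fun n hn =>
    Or.inr (Or.inr (Or.inr ⟨rfl, rfl, rfl, hn⟩))
  have to0 : ∀ x, Relation.ReflTransGen ladder x (0, false) := by
    rintro ⟨n, b⟩
    cases b
    · rcases Nat.mod_two_eq_zero_or_one n with h | h
      · refine Relation.ReflTransGen.head (b := (n + 1, false)) (Or.inl ⟨rfl, rfl, rfl⟩) ?_
        exact Relation.ReflTransGen.head (rung (n + 1) (by omega)) (fromtrue _)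
      · exact Relation.ReflTransGen.head (rung n h) (fromtrue _)
    · exact fromtrue n
  have from0 : ∀ x, Relation.ReflTransGen ladder (0, false) x := by
    rintro ⟨n, b⟩
    cases b
    · exact out n
    · refine (out (2 * n + 1)).trans (Relation.ReflTransGen.head (rung _ (by omega)) ?_)
      have := back n (n + 1)
      rwa [show n + (n + 1) = 2 * n + 1 by omega] at this
  have := isStrongComponent_class ladder (0, false)
  rwa [show {z | Relation.ReflTransGen ladder (0, false) z ∧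
    Relation.ReflTransGen ladder z (0, false)} = Set.univ from
    Set.eq_univ_of_forall fun z => ⟨from0 z, to0 z⟩] at this

/-- Strong components of digraphs with all degrees at most `2` are finite. -/
theorem degree_two {V : Type u} {D : V → V → Prop} (hD : IsOriented D)
    (hdeg : ∀ x, {y | D x y ∨ D y x}.encard ≤ 2) {S : Set V} (hS : IsStrongComponent D S) :
    S.Finite := by
  classical
  by_contra hinf
  obtain ⟨⟨x0, hx0⟩, hs, -⟩ := hS
  have hother : ∀ x ∈ S, ∃ y ∈ S, y ≠ x := by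
    intro x hx
    by_contra hc
    push Not at hc
    exact hinf ((Set.finite_singleton x).subset fun y hy => hc y hy)
  have hnext : ∀ x, ∃ z, x ∈ S → z ∈ S ∧ D x z ∧ ∀ w, D x w → w = z := by
    intro x
    by_cases hx : x ∈ S
    · obtain ⟨y, hy, hyx⟩ := hother x hx
      obtain h | ⟨z, hz, -⟩ := (Relation.ReflTransGen.cases_head_iff).1 (hs x hx y hy)
      · exact absurd h.symm hyx
      obtain h | ⟨z', -, hz'⟩ := (Relation.ReflTransGen.cases_tail_iff _ _ _).1 (hs y hy x hx)
      · exact absurd h.symm hyx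
      refine ⟨z, fun _ => ⟨hz.2.1, hz.2.2, fun w hw => ?_⟩⟩
      by_contra hwz
      have hzz : z' ≠ z := by
        rintro rfl
        exact hD _ _ hz.2.2 hz'.2.2
      have hwz' : w ≠ z' := by
        rintro rfl
        exact hD _ _ hw hz'.2.2
      have h3 : ({w, z, z'} : Set V) ⊆ {y | D x y ∨ D y x} := by
        rintro t (rfl | rfl | rfl)
        · exact Or.inl hw
        · exact Or.inl hz.2.2
        · exact Or.inr hz'.2.2
      have h4 := (Set.encard_le_encard h3).trans (hdeg x)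
      rw [Set.encard_insert_of_notMem (by simp [hwz, hwz']), Set.encard_pair hzz.symm] at h4
      norm_num at h4
    · exact ⟨x, fun h => absurd h hx⟩
  choose f hf using hnext
  have hiter : ∀ x ∈ S, ∀ y, Relation.ReflTransGen (fun a b => a ∈ S ∧ b ∈ S ∧ D a b) x y →
      ∃ n : ℕ, y = f^[n] x := by
    intro x hx y h
    induction h with
    | refl => exact ⟨0, rfl⟩
    | tail hab hbc ih =>
      obtain ⟨n, hn⟩ := ih
      refine ⟨n + 1, ?_⟩
      rw [Function.iterate_succ_apply', ← hn]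
      exact (hf _ hbc.1).2.2 _ hbc.2.2
  obtain ⟨m, hm⟩ := hiter (f x0) (hf x0 hx0).1 x0 (hs _ (hf x0 hx0).1 _ hx0)
  rw [← Function.iterate_succ_apply] at hm
  have hper : Function.IsPeriodicPt f (m + 1) x0 := hm.symm
  apply hinf
  refine ((Set.finite_Iio (m + 1)).image (fun n => f^[n] x0)).subset ?_
  intro y hy
  obtain ⟨n, hn⟩ := hiter x0 hx0 y (hs x0 hx0 y hy)
  refine ⟨n % (m + 1), Nat.mod_lt _ (Nat.succ_pos m), ?_⟩
  rw [hn]
  exact hper.iterate_mod_apply n

end ladder

section necessity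

variable {V : Type u}

/-- `E'` is the result of some reversal sequence of `D`. -/
def Reaches (D E' : V → V → Prop) : Prop :=
  ∃ (θ : Ordinal.{v}) (C E : Ordinal.{v} → V → V → Prop), IsReversalSequence D θ C E ∧ E θ = E'

theorem finite_all {D : V → V → Prop} {θ : Ordinal.{v}} {C E : Ordinal.{v} → V → V → Prop}
    (h : IsReversalSequence D θ C E) (ξ : Ordinal.{v}) : ξ ≤ θ → ∀ x y, (D x y ∨ D y x) →
    {η | η < ξ ∧ (C η x y ∨ C η y x)}.Finite := by
  induction ξ using WellFoundedLT.induction with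
  | _ ξ ih =>
    intro hξ x y hxy
    rcases Ordinal.zero_or_succ_or_isSuccLimit ξ with rfl | ⟨δ, rfl⟩ | hl
    · refine Set.finite_empty.subset ?_
      rintro η ⟨h1, -⟩
      exact absurd h1 not_lt_zero
    · refine ((ih δ (Order.lt_succ δ) ((Order.le_succ δ).trans hξ) x y hxy).insert δ).subset ?_
      rintro η ⟨h1, h2⟩
      rcases (Order.lt_succ_iff.1 h1).eq_or_lt with h3 | h3
      · exact Or.inl h3
      · exact Or.inr ⟨h3, h2⟩
    · rcases hxy with hxy | hxy
      · exact h.locallyFinite ξ hξ hl x y hxy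
      · refine (h.locallyFinite ξ hξ hl y x hxy).subset ?_
        rintro η ⟨h1, h2⟩
        exact ⟨h1, h2.symm⟩

theorem Reaches.trans {D E₁ E₂ : V → V → Prop} (hD : IsOriented D) (h1 : Reaches.{u, v} D E₁)
    (h2 : Reaches.{u, v} E₁ E₂) : Reaches.{u, v} D E₂ := by
  classical
  obtain ⟨θ₁, C₁, F₁, h1, rfl⟩ := h1
  obtain ⟨θ₂, C₂, F₂, h2, rfl⟩ := h2
  set C : Ordinal.{v} → V → V → Prop := fun ξ => if ξ < θ₁ then C₁ ξ else C₂ (ξ - θ₁) with hC
  set E : Ordinal.{v} → V → V → Prop := fun ξ => if ξ ≤ θ₁ then F₁ ξ else F₂ (ξ - θ₁) with hE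
  have hC1 : ∀ ξ, ξ < θ₁ → C ξ = C₁ ξ := fun ξ hξ => by rw [hC]; exact if_pos hξ
  have hE1 : ∀ ξ, ξ ≤ θ₁ → E ξ = F₁ ξ := fun ξ hξ => by rw [hE]; exact if_pos hξ
  have hC2 : ∀ δ, C (θ₁ + δ) = C₂ δ := fun δ => by
    rw [hC]
    simp only
    rw [if_neg (not_lt.2 le_self_add), Ordinal.add_sub_cancel]
  have hE2 : ∀ δ, E (θ₁ + δ) = F₂ δ := fun δ => by
    rw [hE]
    simp only
    rcases eq_or_ne δ 0 with rfl | hδ
    · rw [add_zero, if_pos le_rfl, h2.zero]
    · rw [if_neg (not_le.2 (lt_add_of_pos_right _ (pos_iff_ne_zero.2 hδ))),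
        Ordinal.add_sub_cancel]
  refine ⟨θ₁ + θ₂, C, E, ⟨?_, ?_, ?_, ?_, ?_⟩, hE2 θ₂⟩
  · rw [hE1 0 zero_le, h1.zero]
  · intro ξ hξ
    rcases lt_or_ge ξ θ₁ with h | h
    · rw [hC1 ξ h, hE1 ξ h.le]
      exact h1.cycle ξ h
    · obtain ⟨δ, rfl⟩ := exists_add_of_le h
      rw [hC2, hE2]
      exact h2.cycle δ (lt_of_add_lt_add_left hξ)
  · intro ξ hξ
    rcases lt_or_ge ξ θ₁ with h | h
    · rw [hC1 ξ h, hE1 ξ h.le, hE1 _ (Order.succ_le_iff.2 h)]
      exact h1.succ ξ h
    · obtain ⟨δ, rfl⟩ := exists_add_of_le h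
      have hs : Order.succ (θ₁ + δ) = θ₁ + Order.succ δ := by
        rw [Order.succ_eq_add_one, Order.succ_eq_add_one, add_assoc]
      rw [hs, hC2, hE2, hE2]
      exact h2.succ δ (lt_of_add_lt_add_left hξ)
  · intro ξ hξ hl x y hxy
    rcases le_or_gt ξ θ₁ with h | h
    · refine (h1.locallyFinite ξ h hl x y hxy).subset ?_
      rintro η ⟨h3, h4⟩
      rw [hC1 η (h3.trans_le h)] at h4
      exact ⟨h3, h4⟩
    · obtain ⟨δ, rfl⟩ := exists_add_of_le h.le
      have hδ : δ ≤ θ₂ := le_of_add_le_add_left hξ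
      have hadj := (basic hD h1 θ₁ le_rfl).2 x y
      refine ((finite_all h1 θ₁ le_rfl x y (Or.inl hxy)).union
        ((finite_all h2 δ hδ x y (hadj.2 (Or.inl hxy))).image (fun δ' => θ₁ + δ'))).subset ?_
      rintro η ⟨h3, h4⟩
      rcases lt_or_ge η θ₁ with h5 | h5
      · rw [hC1 η h5] at h4
        exact Or.inl ⟨h5, h4⟩
      · obtain ⟨δ', rfl⟩ := exists_add_of_le h5
        rw [hC2] at h4
        exact Or.inr ⟨δ', ⟨lt_of_add_lt_add_left h3, h4⟩, rfl⟩
  · intro ξ hξ hl x y
    rcases le_or_gt ξ θ₁ with h | h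
    · rw [hE1 ξ h, h1.limit ξ h hl x y]
      constructor
      · rintro ⟨η, hη, hall⟩
        exact ⟨η, hη, fun ζ h3 h4 => by rw [hE1 ζ (h4.le.trans h)]; exact hall ζ h3 h4⟩
      · rintro ⟨η, hη, hall⟩
        exact ⟨η, hη, fun ζ h3 h4 => by
          have := hall ζ h3 h4
          rwa [hE1 ζ (h4.le.trans h)] at this⟩
    · obtain ⟨δ, rfl⟩ := exists_add_of_le h.le
      have hδ : δ ≤ θ₂ := le_of_add_le_add_left hξ
      have hδ0 : 0 < δ := by
        by_contra hc
        rw [not_lt, nonpos_iff_eq_zero] at hc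
        rw [hc, add_zero] at h
        exact lt_irrefl _ h
      have hlδ : Order.IsSuccLimit δ := by
        rcases Ordinal.zero_or_succ_or_isSuccLimit δ with h3 | ⟨δ', h3⟩ | h3
        · exact absurd h3 hδ0.ne'
        · exfalso
          have h4 := hl.succ_lt (a := θ₁ + δ') (by
            rw [← h3]
            exact add_lt_add_right (Order.lt_succ δ') θ₁)
          rw [← h3, Order.succ_eq_add_one, Order.succ_eq_add_one, add_assoc] at h4
          exact lt_irrefl _ h4
        · exact h3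
      rw [hE2, h2.limit δ hδ hlδ x y]
      constructor
      · rintro ⟨η, hη, hall⟩
        refine ⟨θ₁ + η, add_lt_add_right hη θ₁, fun ζ h3 h4 => ?_⟩
        obtain ⟨δ', rfl⟩ := exists_add_of_le (le_self_add.trans h3)
        rw [hE2]
        exact hall δ' (le_of_add_le_add_left h3) (lt_of_add_lt_add_left h4)
      · rintro ⟨η, hη, hall⟩
        rcases lt_or_ge η θ₁ with h5 | h5
        · refine ⟨0, hδ0, fun ζ _ h4 => ?_⟩
          have := hall (θ₁ + ζ) (h5.le.trans le_self_add) (add_lt_add_right h4 θ₁)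
          rwa [hE2] at this
        · obtain ⟨δ', rfl⟩ := exists_add_of_le h5
          refine ⟨δ', lt_of_add_lt_add_left hη, fun ζ h3 h4 => ?_⟩
          have := hall (θ₁ + ζ) (add_le_add_right h3 θ₁) (add_lt_add_right h4 θ₁)
          rwa [hE2] at this

/-- Sequences of cycle reversals of length `ω`. -/
theorem reaches_of_seq {D E' : V → V → Prop} (G Z : ℕ → V → V → Prop) (h0 : G 0 = D)
    (hcyc : ∀ t, IsDirectedCycle (G t) (Z t)) (hsucc : ∀ t, G (t + 1) = reverse (G t) (Z t))
    (hlf : ∀ x y, D x y → {t | Z t x y ∨ Z t y x}.Finite)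
    (hlim : ∀ x y, E' x y ↔ ∃ n, ∀ m, n ≤ m → G m x y) : Reaches.{u, v} D E' := by
  classical
  set C : Ordinal.{v} → V → V → Prop := fun ξ => if h : ∃ n : ℕ, ξ = n then Z h.choose else Z 0
    with hC
  set E : Ordinal.{v} → V → V → Prop := fun ξ => if h : ∃ n : ℕ, ξ = n then G h.choose else E'
    with hE
  have hC1 : ∀ n : ℕ, C n = Z n := by
    intro n
    have h : ∃ m : ℕ, (n : Ordinal.{v}) = m := ⟨n, rfl⟩
    have h2 : h.choose = n := by
      have := h.choose_spec
      exact_mod_cast this.symm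
    rw [hC]
    simp only
    rw [dif_pos h, h2]
  have hE1 : ∀ n : ℕ, E n = G n := by
    intro n
    have h : ∃ m : ℕ, (n : Ordinal.{v}) = m := ⟨n, rfl⟩
    have h2 : h.choose = n := by
      have := h.choose_spec
      exact_mod_cast this.symm
    rw [hE]
    simp only
    rw [dif_pos h, h2]
  have hEω : E Ordinal.omega0 = E' := by
    rw [hE]
    simp only
    rw [dif_neg]
    rintro ⟨n, hn⟩
    exact (Ordinal.natCast_lt_omega0 n).ne hn.symm
  have hlimω : ∀ ξ : Ordinal.{v}, ξ ≤ Ordinal.omega0 → Order.IsSuccLimit ξ →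
      ξ = Ordinal.omega0 := by
    intro ξ h1 h2
    rcases h1.eq_or_lt with h3 | h3
    · exact h3
    · obtain ⟨n, rfl⟩ := Ordinal.lt_omega0.1 h3
      exfalso
      rcases n with _ | n
      · rw [Nat.cast_zero] at h2
        exact Ordinal.not_isSuccLimit_zero h2
      · have h4 := h2.succ_lt (a := (n : Ordinal.{v})) (by exact_mod_cast Nat.lt_succ_self n)
        rw [Order.succ_eq_add_one] at h4
        push_cast at h4
        exact lt_irrefl _ h4
  refine ⟨Ordinal.omega0, C, E, ⟨?_, ?_, ?_, ?_, ?_⟩, hEω⟩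
  · have := hE1 0
    rw [Nat.cast_zero] at this
    rw [this, h0]
  · intro ξ hξ
    obtain ⟨n, rfl⟩ := Ordinal.lt_omega0.1 hξ
    rw [hC1, hE1]
    exact hcyc n
  · intro ξ hξ
    obtain ⟨n, rfl⟩ := Ordinal.lt_omega0.1 hξ
    have := hE1 (n + 1)
    rw [Order.succ_eq_add_one, hC1, hE1, ← hsucc, ← this]
    push_cast
    rfl
  · intro ξ hξ hl x y hxy
    rw [hlimω ξ hξ hl]
    refine ((hlf x y hxy).image (fun n : ℕ => (n : Ordinal.{v}))).subset ?_
    rintro η ⟨h1, h2⟩
    obtain ⟨n, rfl⟩ := Ordinal.lt_omega0.1 h1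
    rw [hC1] at h2
    exact ⟨n, h2, rfl⟩
  · intro ξ hξ hl x y
    rw [hlimω ξ hξ hl, hEω, hlim]
    constructor
    · rintro ⟨n, hn⟩
      refine ⟨n, Ordinal.natCast_lt_omega0 n, fun ζ h1 h2 => ?_⟩
      obtain ⟨m, rfl⟩ := Ordinal.lt_omega0.1 h2
      rw [hE1]
      exact hn m (by exact_mod_cast h1)
    · rintro ⟨η, hη, hall⟩
      obtain ⟨n, rfl⟩ := Ordinal.lt_omega0.1 hη
      refine ⟨n, fun m hm => ?_⟩
      have := hall m (by exact_mod_cast hm) (Ordinal.natCast_lt_omega0 m)
      rwa [hE1] at this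

end necessity

section necessity2

variable {V : Type u}

/-- `G` is an orientation of the graph of `D` with the same out-degrees. -/
structure Sim (D G : V → V → Prop) : Prop where
  oriented : IsOriented G
  adj : ∀ x y, (G x y ∨ G y x) ↔ (D x y ∨ D y x)
  outdeg : ∀ x, {y | G x y}.ncard = {y | D x y}.ncard

theorem Sim.rel {D G H : V → V → Prop} (hG : Sim D G) (hH : Sim D H) : Sim G H :=
  ⟨hH.oriented, fun x y => (hH.adj x y).trans (hG.adj x y).symm,
    fun x => (hH.outdeg x).trans (hG.outdeg x).symm⟩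

theorem Sim.reverse {D G Z : V → V → Prop} (h : Sim D G) (hZ : IsDirectedCycle G Z) :
    Sim D (reverse G Z) :=
  ⟨reverse_oriented h.oriented hZ, fun x y => by rw [reverse_adj hZ, h.adj],
    fun x => by rw [reverse_outdeg h.oriented hZ, h.outdeg]⟩

/-- The arcs of `G` which are not arcs of `H`. -/
def diff (G H : V → V → Prop) : Set (V × V) := {p | G p.1 p.2 ∧ ¬ H p.1 p.2}

theorem rev_of_diff {G H : V → V → Prop} (h : Sim G H) {x y : V} (hxy : (x, y) ∈ diff G H) :
    H y x := ((h.adj x y).2 (Or.inl hxy.1)).resolve_left hxy.2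

theorem eq_of_diff_empty {G H : V → V → Prop} (h : Sim G H)
    (he : diff G H = ∅) : G = H := by
  have hsub : ∀ x y, G x y → H x y := by
    intro x y hxy
    by_contra hc
    have : (x, y) ∈ diff G H := ⟨hxy, hc⟩
    rw [he] at this
    exact this
  funext x y
  refine propext ⟨hsub x y, fun hxy => ?_⟩
  rcases (h.adj x y).1 (Or.inl hxy) with h1 | h1
  · exact h1
  · exact absurd (hsub _ _ h1) (h.oriented _ _ hxy)

theorem next_val {n : ℕ} (i : ZMod (n + 1)) :
    (i.val < n ∧ (i + 1).val = i.val + 1) ∨ (i.val = n ∧ i + 1 = 0) := by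
  have hadd : (i + 1).val = (i.val + 1 % (n + 1)) % (n + 1) := by
    rw [ZMod.val_add, ZMod.val_one_eq_one_mod]
  rcases Nat.lt_or_ge i.val n with h | h
  · refine Or.inl ⟨h, ?_⟩
    rw [hadd, Nat.mod_eq_of_lt (a := 1) (by omega), Nat.mod_eq_of_lt (by omega)]
  · have h1 : i.val = n := le_antisymm (Nat.lt_succ_iff.1 (ZMod.val_lt i)) h
    refine Or.inr ⟨h1, ?_⟩
    apply ZMod.val_injective
    rw [hadd, h1, ZMod.val_zero]
    rcases n with _ | n
    · rfl
    · rw [Nat.mod_eq_of_lt (a := 1) (by omega), Nat.mod_self]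

theorem exists_cycle {G H : V → V → Prop} (hG : IsOriented G)
    (hlf : ∀ x, {y | G x y ∨ G y x}.Finite) (h : Sim G H) (hfin : (diff G H).Finite)
    (hne : (diff G H).Nonempty) :
    ∃ Z, IsDirectedCycle G Z ∧ ∀ x y, Z x y → (x, y) ∈ diff G H := by
  classical
  have hbal : ∀ x, {y | (x, y) ∈ diff G H}.ncard = {y | (y, x) ∈ diff G H}.ncard := by
    intro x
    have h1 : {y | (x, y) ∈ diff G H} = {y | G x y} \ {y | H x y} := by
      ext y
      rfl
    have h2 : {y | (y, x) ∈ diff G H} = {y | H x y} \ {y | G x y} := by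
      ext y
      constructor
      · intro hy
        exact ⟨rev_of_diff h hy, hG _ _ hy.1⟩
      · rintro ⟨h3, h4⟩
        exact ⟨((h.adj x y).1 (Or.inl h3)).resolve_left h4, h.oriented _ _ h3⟩
    have hf1 : {y | G x y}.Finite := (hlf x).subset fun y hy => Or.inl hy
    have hf2 : {y | H x y}.Finite := (hlf x).subset fun y hy => (h.adj x y).1 (Or.inl hy)
    have h3 := Set.ncard_inter_add_ncard_sdiff_eq_ncard {y | G x y} {y | H x y} hf1
    have h4 := Set.ncard_inter_add_ncard_sdiff_eq_ncard {y | H x y} {y | G x y} hf2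
    rw [Set.inter_comm] at h4
    have h5 := h.outdeg x
    rw [h1, h2]
    omega
  have hstep : ∀ x, (∃ y, (y, x) ∈ diff G H) → ∃ z, (x, z) ∈ diff G H := by
    rintro x ⟨y, hy⟩
    have h1 : {y | (y, x) ∈ diff G H}.Finite := (hlf x).subset fun y hy => Or.inr hy.1
    have h2 : 0 < {y | (y, x) ∈ diff G H}.ncard := (Set.ncard_pos h1).2 ⟨y, hy⟩
    rw [← hbal x] at h2
    obtain ⟨z, hz⟩ := (Set.ncard_pos ((hlf x).subset fun y hy => Or.inl hy.1)).1 h2
    exact ⟨z, hz⟩
  have hnext : ∀ x, ∃ z, (∃ y, (x, y) ∈ diff G H) → (x, z) ∈ diff G H := by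
    intro x
    by_cases hx : ∃ y, (x, y) ∈ diff G H
    · exact ⟨hx.choose, fun _ => hx.choose_spec⟩
    · exact ⟨x, fun hx' => absurd hx' hx⟩
  choose f hf using hnext
  obtain ⟨⟨x0, y0⟩, hxy0⟩ := hne
  have hT : ∀ n, ∃ y, (f^[n] x0, y) ∈ diff G H := by
    intro n
    induction n with
    | zero => exact ⟨y0, hxy0⟩
    | succ n ih =>
      rw [Function.iterate_succ_apply']
      exact hstep _ ⟨_, hf _ ih⟩
  have hTf : ∀ n, f^[n] x0 ∈ Prod.fst '' diff G H := fun n => by
    obtain ⟨y, hy⟩ := hT n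
    exact ⟨_, hy, rfl⟩
  obtain ⟨i, j, hij, hfij⟩ : ∃ i j, i < j ∧ f^[i] x0 = f^[j] x0 := by
    by_contra hcon
    push Not at hcon
    refine Set.infinite_of_injective_forall_mem (f := fun n => f^[n] x0) ?_ hTf (hfin.image _)
    intro a b hab
    rcases lt_trichotomy a b with h1 | h1 | h1
    · exact absurd hab (hcon a b h1)
    · exact h1
    · exact absurd hab.symm (hcon b a h1)
  set z := f^[i] x0 with hz
  have hper : Function.IsPeriodicPt f (j - i) z := by
    show f^[j - i] z = z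
    rw [hz, ← Function.iterate_add_apply, show j - i + i = j by omega]
    exact hfij.symm
  have hpos := hper.minimalPeriod_pos (by omega)
  obtain ⟨n, hn⟩ : ∃ n, Function.minimalPeriod f z = n + 1 := ⟨_, (Nat.succ_pred_eq_of_pos hpos).symm⟩
  have hzT : ∀ m, (f^[m] z, f^[m + 1] z) ∈ diff G H := by
    intro m
    rw [Function.iterate_succ_apply']
    apply hf
    rw [hz, ← Function.iterate_add_apply]
    exact hT _
  have hclose : f^[n + 1] z = z := by
    rw [← hn]
    exact Function.iterate_minimalPeriod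
  let c : ZMod (n + 1) → V := fun i => f^[i.val] z
  have harc : ∀ i, (c i, c (i + 1)) ∈ diff G H := by
    intro i
    rcases next_val i with ⟨-, h2⟩ | ⟨h1, h2⟩
    · have := hzT i.val
      rw [← h2] at this
      exact this
    · have := hzT i.val
      simp only [c]
      rw [h2, ZMod.val_zero, Function.iterate_zero, id]
      rw [h1, hclose] at this
      rw [h1]
      exact this
  refine ⟨fun x y => ∃ i, c i = x ∧ c (i + 1) = y, ⟨n, c, ?_, fun i => (harc i).1,
    fun x y => Iff.rfl⟩, ?_⟩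
  · intro a b hab
    apply ZMod.val_injective
    refine Function.iterate_injOn_Iio_minimalPeriod (f := f) (x := z) ?_ ?_ hab
    · rw [hn]
      exact ZMod.val_lt a
    · rw [hn]
      exact ZMod.val_lt b
  · rintro x y ⟨i, rfl, rfl⟩
    exact harc i

theorem diff_reverse {G H Z : V → V → Prop} (h : Sim G H)
    (hZs : ∀ x y, Z x y → (x, y) ∈ diff G H) :
    diff (reverse G Z) H = diff G H \ {p | Z p.1 p.2} := by
  ext ⟨x, y⟩
  simp only [diff, Set.mem_ofPred_eq, reverse, Set.mem_sdiff]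
  constructor
  · rintro ⟨h1 | h1, h2⟩
    · exact ⟨⟨h1.1, h2⟩, h1.2⟩
    · exact absurd (rev_of_diff h (hZs _ _ h1)) h2
  · rintro ⟨⟨h1, h2⟩, h3⟩
    exact ⟨Or.inl ⟨h1, h3⟩, h2⟩

theorem cycle_nonempty {G Z : V → V → Prop} (hZ : IsDirectedCycle G Z) : ∃ x y, Z x y := by
  obtain ⟨n, c, -, -, h⟩ := hZ
  exact ⟨c 0, c (0 + 1), (h _ _).2 ⟨0, rfl, rfl⟩⟩

theorem cycle_sub {G Z : V → V → Prop} (hZ : IsDirectedCycle G Z) {x y : V} (h : Z x y) :
    G x y := by
  obtain ⟨n, c, -, h1, h2⟩ := hZ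
  obtain ⟨i, rfl, rfl⟩ := (h2 x y).1 h
  exact h1 i

/-- Limits of reorientations with finite differences are results of reversal sequences. -/
theorem reaches_limit {D E' : V → V → Prop} (hD : IsOriented D)
    (hlf : ∀ x, {y | D x y ∨ D y x}.Finite) (H : ℕ → V → V → Prop) (hsim : ∀ n, Sim D (H n))
    (hfin : ∀ n, (diff D (H n)).Finite) (hne0 : D ≠ H 0) (hne : ∀ n, H n ≠ H (n + 1))
    (hlim : ∀ x y, ∃ N, ∀ n, N ≤ n → (H n x y ↔ E' x y)) : Reaches.{u, v} D E' := by
  classical
  have hfin2 : ∀ n m, (diff (H n) (H m)).Finite := by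
    intro n m
    refine (((hfin n).image Prod.swap).union (hfin m)).subset ?_
    rintro ⟨x, y⟩ ⟨h1, h2⟩
    by_cases h3 : D x y
    · exact Or.inr ⟨h3, h2⟩
    · refine Or.inl ⟨(y, x), ⟨(((hsim n).adj x y).1 (Or.inl h1)).resolve_left h3,
        (hsim n).oriented _ _ h1⟩, rfl⟩
  let σ : Type u := {s : (V → V → Prop) × ℕ // Sim D s.1 ∧ (diff s.1 (H s.2)).Finite ∧ s.1 ≠ H s.2}
  have hstep : ∀ s : σ, ∃ Z : V → V → Prop, ∃ s' : σ, IsDirectedCycle s.1.1 Z ∧
      (∀ x y, Z x y → (x, y) ∈ diff s.1.1 (H s.1.2)) ∧ s'.1.1 = reverse s.1.1 Z ∧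
      ((s'.1.2 = s.1.2 ∧ (diff s'.1.1 (H s'.1.2)).ncard < (diff s.1.1 (H s.1.2)).ncard) ∨
        (s'.1.2 = s.1.2 + 1 ∧ s'.1.1 = H s.1.2)) := by
    rintro ⟨⟨G, n⟩, h1, h2, h3⟩
    simp only at h1 h2 h3
    have hGH : Sim G (H n) := h1.rel (hsim n)
    have hlfG : ∀ x, {y | G x y ∨ G y x}.Finite := fun x => by
      simp only [h1.adj]
      exact hlf x
    have hnonempty : (diff G (H n)).Nonempty := by
      rw [Set.nonempty_iff_ne_empty]
      exact fun he => h3 (eq_of_diff_empty hGH he)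
    obtain ⟨Z, hZ, hZs⟩ := exists_cycle h1.oriented hlfG hGH h2 hnonempty
    have hS := h1.reverse hZ
    have hd := diff_reverse hGH hZs
    have hdfin : (diff (reverse G Z) (H n)).Finite := by
      rw [hd]
      exact h2.subset Set.sdiff_subset
    by_cases heq : reverse G Z = H n
    · refine ⟨Z, ⟨(reverse G Z, n + 1), hS, ?_, ?_⟩, hZ, hZs, rfl, Or.inr ⟨rfl, heq⟩⟩
      · simp only
        rw [heq]
        exact hfin2 _ _
      · simp only
        rw [heq]
        exact hne n
    · refine ⟨Z, ⟨(reverse G Z, n), hS, hdfin, heq⟩, hZ, hZs, rfl, Or.inl ⟨rfl, ?_⟩⟩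
      simp only
      rw [hd]
      apply Set.ncard_lt_ncard _ h2
      refine ⟨Set.sdiff_subset, fun hsub => ?_⟩
      obtain ⟨x, y, hxy⟩ := cycle_nonempty hZ
      exact (hsub (hZs x y hxy)).2 hxy
  choose Zs nx hcyc hZs hrev hcase using hstep
  let s0 : σ := ⟨(D, 0), ⟨hD, fun _ _ => Iff.rfl, fun _ => rfl⟩, hfin 0, hne0⟩
  let st : ℕ → σ := fun t => nx^[t] s0
  have hst : ∀ t, st (t + 1) = nx (st t) := fun t => Function.iterate_succ_apply' nx t s0
  let G : ℕ → V → V → Prop := fun t => (st t).1.1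
  let Z : ℕ → V → V → Prop := fun t => Zs (st t)
  let ν : ℕ → ℕ := fun t => (st t).1.2
  have hG : ∀ t, G (t + 1) = reverse (G t) (Z t) := fun t => by
    show (st (t + 1)).1.1 = _
    rw [hst]
    exact hrev _
  have hZd : ∀ t x y, Z t x y → (x, y) ∈ diff (G t) (H (ν t)) := fun t => hZs (st t)
  have hsimG : ∀ t, Sim D (G t) := fun t => (st t).2.1
  have hc : ∀ t, (ν (t + 1) = ν t ∧ (diff (G (t + 1)) (H (ν (t + 1)))).ncard <
      (diff (G t) (H (ν t))).ncard) ∨ (ν (t + 1) = ν t + 1 ∧ G (t + 1) = H (ν t)) := fun t => by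
    have := hcase (st t)
    rw [← hst] at this
    exact this
  have hprog : ∀ d t, (diff (G t) (H (ν t))).ncard = d → ∃ t', t ≤ t' ∧ ν t' = ν t ∧
      ν (t' + 1) = ν t' + 1 ∧ G (t' + 1) = H (ν t') := by
    intro d
    induction d using Nat.strong_induction_on with
    | _ d ih =>
      intro t ht
      rcases hc t with ⟨h1, h2⟩ | ⟨h1, h2⟩
      · obtain ⟨t', h3, h4, h5, h6⟩ := ih _ (ht ▸ h2) (t + 1) rfl
        exact ⟨t', by omega, by omega, h5, h6⟩
      · exact ⟨t, le_rfl, rfl, h1, h2⟩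
  have hmono : Monotone ν := by
    refine monotone_nat_of_le_succ fun t => ?_
    rcases hc t with ⟨h1, -⟩ | ⟨h1, -⟩ <;> omega
  have hunb : ∀ N, ∃ t, N ≤ ν t := by
    intro N
    induction N with
    | zero => exact ⟨0, Nat.zero_le _⟩
    | succ N ih =>
      obtain ⟨t, ht⟩ := ih
      obtain ⟨t', h1, h2, h3, -⟩ := hprog _ t rfl
      exact ⟨t' + 1, by omega⟩
  -- analysis of a fixed edge
  have hedge : ∀ x y, (D x y ∨ D y x) → {t | Z t x y ∨ Z t y x}.Finite ∧
      ∃ T, ∀ t, T ≤ t → (G t x y ↔ E' x y) := by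
    intro x y hxy
    obtain ⟨N1, hN1⟩ := hlim x y
    obtain ⟨N2, hN2⟩ := hlim y x
    obtain ⟨t0, ht0⟩ := hunb (max N1 N2)
    have hνt : ∀ t, t0 ≤ t → N1 ≤ ν t ∧ N2 ≤ ν t := fun t ht => by
      have := hmono ht
      have h1 := le_max_left N1 N2
      have h2 := le_max_right N1 N2
      constructor <;> omega
    have hset : ∀ t, t0 ≤ t → ((G t x y ↔ E' x y) ∧ (G t y x ↔ E' y x)) →
        ¬ (Z t x y ∨ Z t y x) := by
      rintro t ht ⟨h1, h2⟩ (h3 | h3)
      · have := hZd t _ _ h3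
        exact this.2 ((hN1 _ (hνt t ht).1).2 (h1.1 this.1))
      · have := hZd t _ _ h3
        exact this.2 ((hN2 _ (hνt t ht).2).2 (h2.1 this.1))
    have hstay : ∀ t, ¬ (Z t x y ∨ Z t y x) → (G (t + 1) x y ↔ G t x y) ∧
        (G (t + 1) y x ↔ G t y x) := by
      intro t h1
      rw [hG]
      simp only [reverse]
      tauto
    have hpers : ∀ t, t0 ≤ t → ((G t x y ↔ E' x y) ∧ (G t y x ↔ E' y x)) → ∀ m,
        ((G (t + m) x y ↔ E' x y) ∧ (G (t + m) y x ↔ E' y x)) := by
      intro t ht h1 m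
      induction m with
      | zero => exact h1
      | succ m ih =>
        have h2 := hstay (t + m) (hset (t + m) (by omega) ih)
        exact ⟨h2.1.trans ih.1, h2.2.trans ih.2⟩
    have hE'1 : (E' x y ∨ E' y x) := by
      have := ((hsim (max N1 N2)).adj x y).2 hxy
      rwa [hN1 _ (le_max_left _ _), hN2 _ (le_max_right _ _)] at this
    have hE'2 : ¬ (E' x y ∧ E' y x) := by
      rintro ⟨h1, h2⟩
      rw [← hN1 _ (le_max_left N1 N2)] at h1
      rw [← hN2 _ (le_max_right N1 N2)] at h2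
      exact (hsim _).oriented _ _ h1 h2
    have hflip : ∀ t, t0 ≤ t → (Z t x y ∨ Z t y x) →
        ((G (t + 1) x y ↔ E' x y) ∧ (G (t + 1) y x ↔ E' y x)) := by
      intro t ht h1
      have h5 : ∀ a b, Z t a b → G (t + 1) b a ∧ ¬ G (t + 1) a b := by
        intro a b hab
        have h6 : G (t + 1) b a := by
          rw [hG]
          exact Or.inr hab
        exact ⟨h6, (hsimG (t + 1)).oriented _ _ h6⟩
      rcases h1 with h1 | h1
      · have h2 := (hZd t _ _ h1).2
        rw [hN1 _ (hνt t ht).1] at h2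
        have h3 := h5 _ _ h1
        tauto
      · have h2 := (hZd t _ _ h1).2
        rw [hN2 _ (hνt t ht).2] at h2
        have h3 := h5 _ _ h1
        tauto
    obtain ⟨t1, h1, -, -, h2⟩ := hprog _ t0 rfl
    have hsettled : ((G (t1 + 1) x y ↔ E' x y) ∧ (G (t1 + 1) y x ↔ E' y x)) := by
      rw [h2]
      exact ⟨hN1 _ (hνt t1 h1).1, hN2 _ (hνt t1 h1).2⟩
    have hall := hpers (t1 + 1) (by omega) hsettled
    refine ⟨?_, t1 + 1, fun t ht => ?_⟩
    · refine (Set.finite_Iio (t1 + 1)).subset ?_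
      intro t ht
      by_contra hcon
      simp only [Set.mem_Iio, not_lt] at hcon
      have h3 := hall (t - (t1 + 1))
      rw [show t1 + 1 + (t - (t1 + 1)) = t by omega] at h3
      exact hset t (by omega) h3 ht
    · have h3 := hall (t - (t1 + 1))
      rw [show t1 + 1 + (t - (t1 + 1)) = t by omega] at h3
      exact h3.1
  refine reaches_of_seq G Z rfl (fun t => hcyc (st t)) hG
    (fun x y hxy => (hedge x y (Or.inl hxy)).1) ?_
  intro x y
  by_cases hxy : D x y ∨ D y x
  · obtain ⟨T, hT⟩ := (hedge x y hxy).2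
    constructor
    · intro h
      exact ⟨T, fun m hm => (hT m hm).2 h⟩
    · rintro ⟨n, hn⟩
      exact (hT (max n T) (le_max_right _ _)).1 (hn _ (le_max_left _ _))
  · constructor
    · intro h
      obtain ⟨N, hN⟩ := hlim x y
      exact absurd (((hsim N).adj x y).1 (Or.inl ((hN N le_rfl).2 h))) hxy
    · rintro ⟨n, hn⟩
      exact absurd (((hsimG n).adj x y).1 (Or.inl (hn n le_rfl))) hxy

end necessity2

section necessity3

variable {V : Type u}

theorem exists_subseq [Countable V] (H : ℕ → V → V → Prop) :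
    ∃ φ : ℕ → ℕ, StrictMono φ ∧ ∃ E : V → V → Prop,
      ∀ x y, ∃ N, ∀ n, N ≤ n → (H (φ n) x y ↔ E x y) := by
  classical
  let f : ℕ → (V × V → Bool) := fun n p => decide (H n p.1 p.2)
  obtain ⟨a, φ, hφ, hlim⟩ := CompactSpace.tendsto_subseq f
  refine ⟨φ, hφ, fun x y => a (x, y) = true, fun x y => ?_⟩
  rw [tendsto_pi_nhds] at hlim
  have h1 := hlim (x, y)
  rw [nhds_discrete, Filter.tendsto_pure, Filter.eventually_atTop] at h1
  obtain ⟨N, hN⟩ := h1
  refine ⟨N, fun n hn => ?_⟩
  have := hN n hn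
  simp only [Function.comp, f] at this
  show H (φ n) x y ↔ a (x, y) = true
  rw [← this]
  simp

theorem countable_of_strong {D : V → V → Prop} (hlf : ∀ x, {y | D x y ∨ D y x}.Finite)
    (hs : IsStrongComponent D Set.univ) : Countable V := by
  obtain ⟨⟨x0, -⟩, hs, -⟩ := hs
  let S : ℕ → Set V := fun n => n.rec {x0} (fun _ T => ⋃ x ∈ T, {y | D x y})
  have hS : ∀ n, (S n).Countable := by
    intro n
    induction n with
    | zero => exact Set.countable_singleton x0
    | succ n ih => exact ih.biUnion fun x _ => ((hlf x).subset fun y hy => Or.inl hy).countable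
  have hreach : ∀ y, Relation.ReflTransGen (fun a b => a ∈ Set.univ ∧ b ∈ Set.univ ∧ D a b) x0 y →
      ∃ n, y ∈ S n := by
    intro y h
    induction h with
    | refl => exact ⟨0, rfl⟩
    | tail _ hab ih =>
      obtain ⟨n, hn⟩ := ih
      exact ⟨n + 1, Set.mem_biUnion hn hab.2.2⟩
  rw [← Set.countable_univ_iff]
  refine (Set.countable_iUnion hS).mono ?_
  intro y _
  obtain ⟨n, hn⟩ := hreach y (hs x0 trivial y trivial)
  exact Set.mem_iUnion.2 ⟨n, hn⟩

theorem exists_path {R : V → V → Prop} {v u : V} (h : Relation.ReflTransGen R v u) :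
    ∃ (m : ℕ) (q : ℕ → V), q 0 = v ∧ q m = u ∧ ∀ i < m, R (q i) (q (i + 1)) := by
  induction h with
  | refl => exact ⟨0, fun _ => v, rfl, rfl, fun i hi => absurd hi (Nat.not_lt_zero i)⟩
  | @tail b c _ hbc ih =>
    obtain ⟨m, q, h0, hm, hq⟩ := ih
    refine ⟨m + 1, fun i => if i ≤ m then q i else c, ?_, ?_, fun i hi => ?_⟩
    · simp [h0]
    · simp
    · simp only
      rw [if_pos (by omega)]
      by_cases h1 : i + 1 ≤ m
      · rw [if_pos h1]
        exact hq i (by omega)
      · rw [if_neg h1, show i = m by omega, hm]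
        exact hbc

theorem exists_simple {R : V → V → Prop} {v u : V} (h : Relation.ReflTransGen R v u) :
    ∃ (m : ℕ) (q : ℕ → V), q 0 = v ∧ q m = u ∧ (∀ i < m, R (q i) (q (i + 1))) ∧
      ∀ i j, i ≤ m → j ≤ m → q i = q j → i = j := by
  classical
  have hex := exists_path h
  obtain ⟨q, h0, hm, hq⟩ := Nat.find_spec hex
  set m := Nat.find hex with hmdef
  have key : ∀ i j, i < j → j ≤ m → q i ≠ q j := by
    intro i j hij hj hqq
    refine Nat.find_min hex (m := m - (j - i)) (by omega) ?_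
    refine ⟨fun t => if t ≤ i then q t else q (t + (j - i)), ?_, ?_, ?_⟩
    · simp [h0]
    · simp only
      by_cases h1 : m - (j - i) ≤ i
      · rw [if_pos h1, show m - (j - i) = i by omega, hqq, show j = m by omega, hm]
      · rw [if_neg h1, show m - (j - i) + (j - i) = m by omega, hm]
    · intro t ht
      simp only
      by_cases h1 : t ≤ i
      · rw [if_pos h1]
        by_cases h2 : t + 1 ≤ i
        · rw [if_pos h2]
          exact hq t (by omega)
        · rw [if_neg h2, show t = i by omega, hqq, show i + 1 + (j - i) = j + 1 by omega]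
          exact hq j (by omega)
      · rw [if_neg h1, if_neg (by omega), show t + 1 + (j - i) = t + (j - i) + 1 by omega]
        exact hq _ (by omega)
  refine ⟨m, q, h0, hm, hq, fun i j hi hj hqq => ?_⟩
  rcases lt_trichotomy i j with h1 | h1 | h1
  · exact absurd hqq (key i j h1 hj)
  · exact h1
  · exact absurd hqq.symm (key j i h1 hi)

theorem exists_cycle_through {E : V → V → Prop} {X : Set V} {u v l r : V} (huv : E u v)
    (hu : u ∈ X) (hv : v ∉ X) (hrl : E r l) (hr : r ∉ X) (hl : l ∈ X)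
    (hvr : Relation.ReflTransGen (fun a b => a ∉ X ∧ b ∉ X ∧ E a b) v r)
    (hlu : Relation.ReflTransGen (fun a b => a ∈ X ∧ b ∈ X ∧ E a b) l u) :
    ∃ Z, IsDirectedCycle E Z ∧ Z u v ∧ Z r l ∧ (∀ x y, Z x y → x ∈ X → y ∉ X → x = u ∧ y = v) ∧
      ∀ x y, Z x y → x ∉ X → y ∈ X → x = r ∧ y = l := by
  let R : V → V → Prop := fun a b => (a ∉ X ∧ b ∉ X ∧ E a b) ∨ (a ∈ X ∧ b ∈ X ∧ E a b) ∨
    (a = r ∧ b = l)
  have hRrl : R r l := Or.inr (Or.inr ⟨rfl, rfl⟩)
  have hR1 : Relation.ReflTransGen R v r :=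
    Relation.ReflTransGen.mono (fun a b h => Or.inl h) _ _ hvr
  have hR2 : Relation.ReflTransGen R l u :=
    Relation.ReflTransGen.mono (fun a b h => Or.inr (Or.inl h)) _ _ hlu
  have hR : Relation.ReflTransGen R v u := (hR1.tail hRrl).trans hR2
  have hRE : ∀ a b, R a b → E a b := by
    rintro a b (h | h | ⟨rfl, rfl⟩)
    · exact h.2.2
    · exact h.2.2
    · exact hrl
  obtain ⟨m, q, h0, hm, hq, hinj⟩ := exists_simple hR
  let c : ZMod (m + 1) → V := fun i => q i.val
  have hval : ∀ i : ZMod (m + 1), i.val ≤ m := fun i => Nat.lt_succ_iff.1 (ZMod.val_lt i)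
  have hnext : ∀ i : ZMod (m + 1), (i.val < m ∧ c (i + 1) = q (i.val + 1)) ∨
      (i.val = m ∧ c (i + 1) = v) := by
    intro i
    rcases next_val i with ⟨h1, h2⟩ | ⟨h1, h2⟩
    · exact Or.inl ⟨h1, by simp only [c]; rw [h2]⟩
    · refine Or.inr ⟨h1, ?_⟩
      simp only [c]
      rw [h2, ZMod.val_zero, h0]
  have hcast : ∀ i, i ≤ m → ((i : ℕ) : ZMod (m + 1)).val = i := fun i hi =>
    ZMod.val_cast_of_lt (Nat.lt_succ_of_le hi)
  have hcross : ∃ i < m, q i ∉ X ∧ q (i + 1) ∈ X := by
    by_contra hcon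
    push Not at hcon
    have : ∀ i, i ≤ m → q i ∉ X := by
      intro i
      induction i with
      | zero => exact fun _ => h0 ▸ hv
      | succ i ih => exact fun hi => hcon i (by omega) (ih (by omega))
    exact this m le_rfl (hm ▸ hu)
  refine ⟨fun x y => ∃ i, c i = x ∧ c (i + 1) = y, ⟨m, c, ?_, ?_, fun x y => Iff.rfl⟩, ?_, ?_, ?_, ?_⟩
  · intro a b hab
    exact ZMod.val_injective _ (hinj _ _ (hval a) (hval b) hab)
  · intro i
    rcases hnext i with ⟨h1, h2⟩ | ⟨h1, h2⟩
    · rw [h2]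
      exact hRE _ _ (hq _ h1)
    · rw [h2]
      simp only [c]
      rw [h1, hm]
      exact huv
  · show ∃ i, c i = u ∧ c (i + 1) = v
    refine ⟨((m : ℕ) : ZMod (m + 1)), ?_, ?_⟩
    · simp only [c]
      rw [hcast m le_rfl, hm]
    · rcases hnext ((m : ℕ) : ZMod (m + 1)) with ⟨h1, h2⟩ | ⟨h1, h2⟩
      · rw [hcast m le_rfl] at h1
        exact absurd h1 (lt_irrefl _)
      · exact h2
  · obtain ⟨i, hi, h1, h2⟩ := hcross
    have h3 := hq i hi
    have h4 : q i = r ∧ q (i + 1) = l := by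
      rcases h3 with h3 | h3 | h3
      · exact absurd h2 h3.2.1
      · exact absurd h3.1 h1
      · exact h3
    show ∃ i, c i = r ∧ c (i + 1) = l
    refine ⟨((i : ℕ) : ZMod (m + 1)), ?_, ?_⟩
    · simp only [c]
      rw [hcast i hi.le, h4.1]
    · rcases hnext ((i : ℕ) : ZMod (m + 1)) with ⟨h5, h6⟩ | ⟨h5, h6⟩
      · rw [h6, hcast i hi.le, h4.2]
      · rw [hcast i hi.le] at h5
        omega
  · rintro x y ⟨i, rfl, rfl⟩ hx hy
    rcases hnext i with ⟨h1, h2⟩ | ⟨h1, h2⟩
    · have h3 := hq _ h1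
      rw [h2] at hy
      simp only [c] at hx
      rcases h3 with h3 | h3 | h3
      · exact absurd hx h3.1
      · exact absurd h3.2.1 hy
      · rw [h3.1] at hx
        exact absurd hx hr
    · refine ⟨?_, h2⟩
      simp only [c]
      rw [h1, hm]
  · rintro x y ⟨i, rfl, rfl⟩ hx hy
    rcases hnext i with ⟨h1, h2⟩ | ⟨h1, h2⟩
    · have h3 := hq _ h1
      rw [h2] at hy
      simp only [c] at hx
      rcases h3 with h3 | h3 | h3
      · exact absurd hy h3.2.1
      · exact absurd h3.1 hx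
      · rw [h2]
        exact h3
    · rw [h2] at hy
      exact absurd hy hv

theorem cycle_finite {G Z : V → V → Prop} (hZ : IsDirectedCycle G Z) :
    {p : V × V | Z p.1 p.2}.Finite := by
  obtain ⟨n, c, -, -, h⟩ := hZ
  refine (Set.finite_range (fun i : ZMod (n + 1) => (c i, c (i + 1)))).subset ?_
  rintro ⟨x, y⟩ hp
  obtain ⟨i, rfl, rfl⟩ := (h x y).1 hp
  exact ⟨i, rfl⟩

theorem strong_leaving {E : V → V → Prop} (hs : IsStrongComponent E Set.univ) {X : Set V}
    (h1 : X.Nonempty) (h2 : X ≠ Set.univ) : (leaving E X).Nonempty := by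
  obtain ⟨x, hx⟩ := h1
  obtain ⟨y, hy⟩ := Set.nonempty_compl.2 h2
  by_contra hcon
  rw [Set.not_nonempty_iff_eq_empty] at hcon
  have hxy : Relation.ReflTransGen E x y :=
    Relation.ReflTransGen.mono (fun a b hab => hab.2.2) _ _ (hs.2.1 x trivial y trivial)
  exact hy ((reach_iff E x y).1 hxy X hx hcon)

/-- If all digraphs obtained from the locally finite digraph `D` are strong, then every vertex set
with infinite boundary is left by infinitely many arcs of `D`. -/
theorem necessity {D : V → V → Prop} (hD : IsOriented D)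
    (hlf : ∀ x, {y | D x y ∨ D y x}.Finite)
    (hall : ∀ E', Reaches.{u, v} D E' → IsStrongComponent E' Set.univ) (X₀ : Set V)
    (hX₀ : (boundary D X₀).Infinite) : (leaving D X₀).Infinite := by
  classical
  by_contra hfin₀
  rw [Set.not_infinite] at hfin₀
  have hrefl : Reaches.{u, v} D D := by
    refine ⟨0, fun _ => D, fun _ => D, ⟨rfl, ?_, ?_, ?_, ?_⟩, rfl⟩
    · intro ξ hξ
      exact absurd hξ not_lt_zero
    · intro ξ hξ
      exact absurd hξ not_lt_zero
    · intro ξ hξ hl
      rw [nonpos_iff_eq_zero] at hξ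
      subst hξ
      exact absurd hl Ordinal.not_isSuccLimit_zero
    · intro ξ hξ hl
      rw [nonpos_iff_eq_zero] at hξ
      subst hξ
      exact absurd hl Ordinal.not_isSuccLimit_zero
  have hex : ∃ n, ∃ (E' : V → V → Prop) (X : Set V), Reaches.{u, v} D E' ∧
      (boundary D X).Infinite ∧ (leaving E' X).Finite ∧ (leaving E' X).ncard = n :=
    ⟨_, D, X₀, hrefl, hX₀, hfin₀, rfl⟩
  obtain ⟨E, X, hDE, hX, hfin, hcard⟩ := Nat.find_spec hex
  have hmin : ∀ (E' : V → V → Prop) (Y : Set V), Reaches.{u, v} D E' → (boundary D Y).Infinite →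
      (leaving E' Y).Finite → (leaving E X).ncard ≤ (leaving E' Y).ncard := by
    intro E' Y h1 h2 h3
    rw [hcard]
    exact Nat.find_min' hex ⟨E', Y, h1, h2, h3, rfl⟩
  have hsim : Sim D E := by
    obtain ⟨θ, C, F, h, rfl⟩ := hDE
    obtain ⟨h1, h2, h3⟩ := invariants hD hlf h θ le_rfl
    exact ⟨h1, h2, h3⟩
  have hstr := hall E hDE
  have hlfE : ∀ x, {y | E x y ∨ E y x}.Finite := fun x => by
    simp only [hsim.adj]
    exact hlf x
  have : Countable V := countable_of_strong hlfE hstr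
  have hXne : X.Nonempty := by
    obtain ⟨p, hp⟩ := hX.nonempty
    exact ⟨p.1, hp.1⟩
  have hXu : X ≠ Set.univ := by
    obtain ⟨p, hp⟩ := hX.nonempty
    intro h
    exact hp.2.1 (h ▸ Set.mem_univ _)
  obtain ⟨⟨u, v⟩, hu, hv, huv⟩ := strong_leaving hstr hXne hXu
  simp only at hu hv huv
  have huvmem : (u, v) ∈ leaving E X := ⟨hu, hv, huv⟩
  have hsmall : ∀ Y : Set V, leaving E Y ⊆ leaving E X \ {(u, v)} → (boundary D Y).Finite := by
    intro Y hY
    by_contra hinf
    have h1 : (leaving E X \ {(u, v)}).Finite := hfin.subset Set.sdiff_subset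
    have h2 := hmin E Y hDE hinf (h1.subset hY)
    have h3 := Set.ncard_le_ncard hY h1
    have h4 := Set.ncard_sdiff_singleton_lt_of_mem huvmem hfin
    omega
  set R : Set V := {z | Relation.ReflTransGen (fun a b => a ∉ X ∧ b ∉ X ∧ E a b) v z} with hR
  set L : Set V := {z | Relation.ReflTransGen (fun a b => a ∈ X ∧ b ∈ X ∧ E a b) z u} with hL
  have hRX : ∀ z ∈ R, z ∉ X := fun z hz => reachAvoid_notMem (E := E) hv hz
  have hLX : ∀ z ∈ L, z ∈ X := by
    intro z hz
    rcases (Relation.ReflTransGen.cases_head_iff).1 hz with h | ⟨c, hc, -⟩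
    · exact h ▸ hu
    · exact hc.1
  have hb1 : (boundary D (X ∪ R)).Finite := by
    apply hsmall
    rintro ⟨a, b⟩ ⟨ha, hb, hab⟩
    simp only [Set.mem_union, not_or] at ha hb hab
    have haX : a ∈ X := by
      rcases ha with ha | ha
      · exact ha
      · exact absurd (Relation.ReflTransGen.tail ha ⟨hRX a ha, hb.1, hab⟩) hb.2
    refine ⟨⟨haX, hb.1, hab⟩, ?_⟩
    rintro h
    have h' : b = v := (Prod.mk.inj h).2
    exact hb.2 (h' ▸ Relation.ReflTransGen.refl)
  have hb2 : (boundary D (X \ L)).Finite := by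
    apply hsmall
    rintro ⟨a, b⟩ ⟨ha, hb, hab⟩
    simp only [Set.mem_sdiff, not_and, not_not] at ha hb hab
    have hbX : b ∉ X := by
      intro hbX
      exact ha.2 (Relation.ReflTransGen.head ⟨ha.1, hbX, hab⟩ (hb hbX))
    refine ⟨⟨ha.1, hbX, hab⟩, ?_⟩
    rintro h
    have h' : a = u := (Prod.mk.inj h).1
    exact ha.2 (h' ▸ Relation.ReflTransGen.refl)
  have hB : {p : V × V | p.1 ∈ L ∧ p.2 ∈ R ∧ E p.2 p.1}.Infinite := by
    intro hBfin
    apply hX
    refine (((hfin.union hb1).union hb2).union hBfin).subset ?_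
    rintro ⟨a, b⟩ ⟨ha, hb, hab⟩
    simp only at ha hb hab
    by_cases h1 : E a b
    · exact Or.inl (Or.inl (Or.inl ⟨ha, hb, h1⟩))
    by_cases h2 : b ∈ R
    · by_cases h3 : a ∈ L
      · exact Or.inr ⟨h3, h2, ((hsim.adj a b).2 hab).resolve_left h1⟩
      · exact Or.inl (Or.inr ⟨⟨ha, h3⟩, fun h => hb h.1, hab⟩)
    · exact Or.inl (Or.inl (Or.inr ⟨Or.inl ha, fun h => h.elim hb h2, hab⟩))
  let g : ℕ → V × V := fun n => (hB.natEmbedding _ n).1
  have hg : ∀ n, (g n).1 ∈ L ∧ (g n).2 ∈ R ∧ E (g n).2 (g n).1 := fun n => (hB.natEmbedding _ n).2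
  have hginj : Function.Injective g := fun a b hab =>
    (hB.natEmbedding _).injective (Subtype.ext hab)
  have hcyc : ∀ n, ∃ Z, IsDirectedCycle E Z ∧ Z u v ∧ Z (g n).2 (g n).1 ∧
      (∀ x y, Z x y → x ∈ X → y ∉ X → x = u ∧ y = v) ∧
      ∀ x y, Z x y → x ∉ X → y ∈ X → x = (g n).2 ∧ y = (g n).1 := fun n =>
    exists_cycle_through huv hu hv (hg n).2.2 (hRX _ (hg n).2.1) (hLX _ (hg n).1) (hg n).2.1
      (hg n).1
  choose Z hZ hZuv hZg hZout hZin using hcyc
  have hsub : ∀ n, leaving (reverse E (Z n)) X ⊆ (leaving E X \ {(u, v)}) ∪ {g n} := by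
    rintro n ⟨a, b⟩ ⟨ha, hb, hab⟩
    simp only [reverse] at ha hb hab
    rcases hab with hab | hab
    · refine Or.inl ⟨⟨ha, hb, hab.1⟩, ?_⟩
      intro h
      obtain ⟨rfl, rfl⟩ := Prod.mk.inj h
      exact hab.2 (hZuv n)
    · obtain ⟨h1, h2⟩ := hZin n _ _ hab hb ha
      exact Or.inr (Prod.ext h2 h1)
  have hmem : ∀ n, g n ∈ leaving (reverse E (Z n)) X := fun n =>
    ⟨hLX _ (hg n).1, hRX _ (hg n).2.1, Or.inr (hZg n)⟩
  have hnot : ∀ n, g n ∉ leaving E X := fun n h => hsim.oriented _ _ h.2.2 (hg n).2.2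
  have hHne : ∀ n m, n ≠ m → reverse E (Z n) ≠ reverse E (Z m) := by
    intro n m hnm heq
    have h1 := hmem m
    rw [← heq] at h1
    rcases hsub n h1 with h2 | h2
    · exact hnot m h2.1
    · exact hnm (hginj h2).symm
  obtain ⟨φ, hφ, E', hE'⟩ := exists_subseq (fun n => reverse E (Z n))
  have hEsim : Sim E E := ⟨hsim.oriented, fun _ _ => Iff.rfl, fun _ => rfl⟩
  have hreach : Reaches.{u, v} E E' := by
    refine reaches_limit hsim.oriented hlfE (fun n => reverse E (Z (φ n)))
      (fun n => hEsim.reverse (hZ _)) (fun n => ?_) ?_ (fun n => hHne _ _ ?_) hE'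
    · refine (cycle_finite (hZ (φ n))).subset ?_
      rintro ⟨x, y⟩ ⟨h1, h2⟩
      by_contra h3
      exact h2 (Or.inl ⟨h1, h3⟩)
    · intro h
      apply hnot (φ 0)
      have := hmem (φ 0)
      rwa [← h] at this
    · exact (hφ (Nat.lt_succ_self n)).ne
  have hlast : leaving E' X ⊆ leaving E X \ {(u, v)} := by
    rintro ⟨a, b⟩ ⟨ha, hb, hab⟩
    obtain ⟨N, hN⟩ := hE' a b
    by_contra hcon
    have hgn : ∀ n, N ≤ n → (a, b) = g (φ n) := by
      intro n hn
      have h1 : (a, b) ∈ leaving (reverse E (Z (φ n))) X := ⟨ha, hb, (hN n hn).2 hab⟩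
      exact (hsub _ h1).resolve_left hcon
    have h2 := (hgn N le_rfl).symm.trans (hgn (N + 1) (Nat.le_succ N))
    exact (hφ (Nat.lt_succ_self N)).ne (hginj h2)
  have h1 : (leaving E X \ {(u, v)}).Finite := hfin.subset Set.sdiff_subset
  have h2 := hmin E' X (hDE.trans hD hreach) hX (h1.subset hlast)
  have h3 := Set.ncard_le_ncard hlast h1
  have h4 := Set.ncard_sdiff_singleton_lt_of_mem huvmem hfin
  omega

end necessity3

section final

theorem criterion {V : Type u} {D : V → V → Prop} {c : ℕ} (hD : IsOriented D)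
    (hc : BoundedBoundary D c)
    (hinf : ∀ X : Set V, (boundary D X).Infinite → (leaving D X).Infinite)
    {θ : Ordinal.{v}} {C E : Ordinal.{v} → V → V → Prop} (h : IsReversalSequence D θ C E) :
    (∀ X : Set V, (leaving (E θ) X).encard = (leaving D X).encard) ∧
      (∀ S : Set V, IsStrongComponent (E θ) S ↔ IsStrongComponent D S) := by
  obtain ⟨-, hadj⟩ := basic hD h θ le_rfl
  have h1 : ∀ X : Set V, (leaving (E θ) X).encard = (leaving D X).encard :=
    encard_leaving hc hinf hadj (fun X hX => cut_invariant hD h X hX θ le_rfl)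
  refine ⟨h1, fun S => ?_⟩
  have hcomp : ∀ (R : V → V → Prop) (S : Set V), IsStrongComponent R S ↔ ∃ x0 ∈ S,
      S = {z | Relation.ReflTransGen R x0 z ∧ Relation.ReflTransGen R z x0} := by
    intro R S
    constructor
    · rintro ⟨⟨x0, hx0⟩, hs, hmax⟩
      refine ⟨x0, hx0, (hmax _ ?_ (isStrongComponent_class R x0).2.1).symm⟩
      intro z hz
      exact ⟨Relation.ReflTransGen.mono (fun a b hab => hab.2.2) _ _ (hs x0 hx0 z hz),
        Relation.ReflTransGen.mono (fun a b hab => hab.2.2) _ _ (hs z hz x0 hx0)⟩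
    · rintro ⟨x0, -, rfl⟩
      exact isStrongComponent_class R x0
  rw [hcomp, hcomp]
  simp only [reach_congr h1]

theorem locallyFinite_of_bounded {V : Type u} {D : V → V → Prop} {c : ℕ} (hD : IsOriented D)
    (hc : BoundedBoundary D c) (x : V) : {y | D x y ∨ D y x}.Finite := by
  refine ((boundary_finite hc (Set.finite_singleton x)).image Prod.snd).subset ?_
  intro y hy
  refine ⟨(x, y), ⟨rfl, ?_, hy⟩, rfl⟩
  intro hyx
  have hyx' : y = x := hyx
  subst hyx'
  rcases hy with hy | hy <;> exact hD _ _ hy hy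

theorem trivialSequence {V : Type u} (D : V → V → Prop) :
    IsReversalSequence D (0 : Ordinal.{v}) (fun _ => D) (fun _ => D) := by
  refine ⟨rfl, ?_, ?_, ?_, ?_⟩
  · intro ξ hξ
    exact absurd hξ not_lt_zero
  · intro ξ hξ
    exact absurd hξ not_lt_zero
  · intro ξ hξ hl
    rw [nonpos_iff_eq_zero] at hξ
    subst hξ
    exact absurd hl Ordinal.not_isSuccLimit_zero
  · intro ξ hξ hl
    rw [nonpos_iff_eq_zero] at hξ
    subst hξ
    exact absurd hl Ordinal.not_isSuccLimit_zero

end final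

/-- **Digraphs that stay strong under all cycle reversal sequences.**

* (A) Let every finite vertex set of `D` lie in a finite vertex set with at most `c` boundary edges,
  and let every vertex set with infinitely many boundary edges be left by infinitely many arcs.
  Then for every reversal sequence the resulting digraph has the same number of arcs leaving every
  vertex set as `D`, and the same strong components.
* (B) If every finite vertex set of `D` lies in a finite vertex set with at most `c` boundary edges,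
  then all digraphs obtained from `D` by reversal sequences are strong if and only if `D` is strong
  and every vertex set with infinitely many boundary edges is left by infinitely many arcs.
* (C) The condition on arcs in (B) is necessary for every locally finite digraph `D`.
* (D) For every `k` there is a countable locally finite digraph such that every digraph obtained
  from it remains strong after deleting at most `k` vertices, and after deleting any finite set of
  vertices it still has a strong component containing all but finitely many vertices.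
* (E) On every infinite set `V` and for every `k` there is a digraph `D` with vertex set `V` such that
  in every digraph obtained from `D` the whole of `V` is a strong component and every nonempty
  proper subset of `V` is left by at least `k` arcs.
* (F) There is a digraph `D` with infinite vertex set and all degrees at most `3` such that every
  digraph obtained from `D` is strong.
* (G) All strong components of a digraph with all degrees at most `2` are finite. -/
theorem result :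
    (∀ (V : Type u) (D : V → V → Prop) (c : ℕ), IsOriented D → BoundedBoundary D c →
      (∀ X : Set V, (boundary D X).Infinite → (leaving D X).Infinite) →
      ∀ (θ : Ordinal.{v}) (C E : Ordinal.{v} → V → V → Prop), IsReversalSequence D θ C E →
        (∀ X : Set V, (leaving (E θ) X).encard = (leaving D X).encard) ∧
        (∀ S : Set V, IsStrongComponent (E θ) S ↔ IsStrongComponent D S)) ∧
    (∀ (V : Type u) (D : V → V → Prop) (c : ℕ), IsOriented D → BoundedBoundary D c →
      ((∀ (θ : Ordinal.{v}) (C E : Ordinal.{v} → V → V → Prop), IsReversalSequence D θ C E →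
          IsStrongComponent (E θ) Set.univ) ↔
        IsStrongComponent D Set.univ ∧
          ∀ X : Set V, (boundary D X).Infinite → (leaving D X).Infinite)) ∧
    (∀ (V : Type u) (D : V → V → Prop), IsOriented D → (∀ x, {y | D x y ∨ D y x}.Finite) →
      (∀ (θ : Ordinal.{v}) (C E : Ordinal.{v} → V → V → Prop), IsReversalSequence D θ C E →
          IsStrongComponent (E θ) Set.univ) →
      ∀ X : Set V, (boundary D X).Infinite → (leaving D X).Infinite) ∧
    (∀ k : ℕ, ∃ D : ℕ × Fin (4 * k + 1) → ℕ × Fin (4 * k + 1) → Prop, IsOriented D ∧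
      (∀ x, {y | D x y ∨ D y x}.Finite) ∧
      ∀ (θ : Ordinal.{v}) (C E : Ordinal.{v} → ℕ × Fin (4 * k + 1) → ℕ × Fin (4 * k + 1) → Prop),
        IsReversalSequence D θ C E →
        (∀ S : Finset (ℕ × Fin (4 * k + 1)), S.card ≤ k →
          StrongOn (E θ) ((S : Set (ℕ × Fin (4 * k + 1)))ᶜ)) ∧
        (∀ S : Finset (ℕ × Fin (4 * k + 1)), ∃ T : Set (ℕ × Fin (4 * k + 1)), Tᶜ.Finite ∧
          IsStrongComponent (fun a b => a ∉ S ∧ b ∉ S ∧ E θ a b) T)) ∧
    (∀ (V : Type u) [Infinite V] (k : ℕ), ∃ D : V → V → Prop, IsOriented D ∧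
      ∀ (θ : Ordinal.{v}) (C E : Ordinal.{v} → V → V → Prop), IsReversalSequence D θ C E →
        IsStrongComponent (E θ) Set.univ ∧
        ∀ X : Set V, X.Nonempty → X ≠ Set.univ → (k : ℕ∞) ≤ (leaving (E θ) X).encard) ∧
    (∃ D : ℕ × Bool → ℕ × Bool → Prop, IsOriented D ∧ (∀ x, {y | D x y ∨ D y x}.encard ≤ 3) ∧
      ∀ (θ : Ordinal.{v}) (C E : Ordinal.{v} → ℕ × Bool → ℕ × Bool → Prop),
        IsReversalSequence D θ C E → IsStrongComponent (E θ) Set.univ) ∧
    (∀ (V : Type u) (D : V → V → Prop), IsOriented D → (∀ x, {y | D x y ∨ D y x}.encard ≤ 2) →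
      ∀ S : Set V, IsStrongComponent D S → S.Finite) := by
  have hA : ∀ (V : Type u) (D : V → V → Prop) (c : ℕ), IsOriented D → BoundedBoundary D c →
      (∀ X : Set V, (boundary D X).Infinite → (leaving D X).Infinite) →
      ∀ (θ : Ordinal.{v}) (C E : Ordinal.{v} → V → V → Prop), IsReversalSequence D θ C E →
        (∀ X : Set V, (leaving (E θ) X).encard = (leaving D X).encard) ∧
        (∀ S : Set V, IsStrongComponent (E θ) S ↔ IsStrongComponent D S) := by
    intro V D c hD hc hinf θ C E h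
    exact criterion hD hc hinf h
  have hC : ∀ (V : Type u) (D : V → V → Prop), IsOriented D →
      (∀ x, {y | D x y ∨ D y x}.Finite) →
      (∀ (θ : Ordinal.{v}) (C E : Ordinal.{v} → V → V → Prop), IsReversalSequence D θ C E →
          IsStrongComponent (E θ) Set.univ) →
      ∀ X : Set V, (boundary D X).Infinite → (leaving D X).Infinite := by
    intro V D hD hlf hall
    refine necessity hD hlf ?_
    rintro E' ⟨θ, C, E, h, rfl⟩
    exact hall θ C E h
  refine ⟨hA, ?_, hC, ?_, ?_, ?_, ?_⟩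
  · intro V D c hD hc
    constructor
    · intro hall
      refine ⟨?_, hC V D hD (locallyFinite_of_bounded hD hc) hall⟩
      have := hall 0 (fun _ => D) (fun _ => D) (trivialSequence D)
      exact this
    · rintro ⟨hs, hinf⟩ θ C E h
      exact ((hA V D c hD hc hinf θ C E h).2 Set.univ).2 hs
  · intro k
    refine ⟨blow (4 * k + 1), blow_oriented _,
      locallyFinite_of_bounded (blow_oriented _) (blow_bounded _), fun θ C E h => ?_⟩
    obtain ⟨-, hadj⟩ := basic (blow_oriented _) h θ le_rfl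
    have hcut := fun X hX => cut_invariant (blow_oriented _) h X hX θ le_rfl
    refine ⟨fun S hS => strong_deleted hadj hcut (by omega), fun S => ?_⟩
    obtain ⟨T, h1, h2, h3⟩ := robust hadj hcut S
    obtain ⟨x0, hx0⟩ : T.Nonempty := by
      have := h1.infinite_compl
      rw [compl_compl] at this
      exact this.nonempty
    refine ⟨_, h1.subset (Set.compl_subset_compl.2 ?_),
      isStrongComponent_class (fun a b => a ∉ S ∧ b ∉ S ∧ E θ a b) x0⟩
    intro z hz
    exact ⟨h3 x0 hx0 z hz, h3 z hz x0 hx0⟩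
  · intro V _ k
    obtain ⟨e⟩ := exists_equiv V k
    refine ⟨glued e, glued_oriented e, fun θ C E h => ?_⟩
    have h1 : ∀ X : Set V, X.Nonempty → X ≠ Set.univ →
        ((k + 1 : ℕ) : ℕ∞) ≤ (leaving (E θ) X).encard := fun X => glued_arcStrong e h
    refine ⟨univ_component fun X hne hX => ?_, fun X hne hX => le_trans ?_ (h1 X hne hX)⟩
    · rw [← Set.encard_pos]
      exact lt_of_lt_of_le (by exact_mod_cast Nat.succ_pos k) (h1 X hne hX)
    · exact_mod_cast Nat.le_succ k
  · refine ⟨ladder, ladder_oriented, ladder_degree, fun θ C E h => ?_⟩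
    exact ((criterion ladder_oriented ladder_bounded ladder_hinf h).2 Set.univ).2 ladder_strong
  · intro V D hD hdeg S hS
    exact degree_two hD hdeg hS

end Pool.Agent.Results.MP_cc637b_co.KConnectedForever
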